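import Mathlib

set_option autoImplicit false

open Complex Set Metric

namespace Pool.Agent.T9h9.Cusp

/-- holomorphic logarithms on discs -/
theorem exists_log_ball {c : ℂ} {r : ℝ} (hr : 0 < r) {f : ℂ → ℂ}
    (hf : DifferentiableOn ℂ f (ball c r)) (h0 : ∀ z ∈ ball c r, f z ≠ 0) :
    ∃ g : ℂ → ℂ, DifferentiableOn ℂ g (ball c r) ∧ ∀ z ∈ ball c r, exp (g z) = f z := by
  have hd : DifferentiableOn ℂ (fun z => deriv f z / f z) (ball c r) :=
    (hf.deriv isOpen_ball).div hf h0
  obtain ⟨F, hF0, hF⟩ := hd.isExactOn_ball.with_val_at c (Complex.log (f c))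
  have hFd : DifferentiableOn ℂ F (ball c r) :=
    fun z hz => (hF z hz).differentiableAt.differentiableWithinAt
  refine ⟨F, hFd, fun z hz => ?_⟩
  have hz0 : c ∈ ball c r := mem_ball_self hr
  have hc : f z * exp (-F z) = f c * exp (-F c) := by
    refine isOpen_ball.is_const_of_deriv_eq_zero (convex_ball c r).isPreconnected
      (f := fun z => f z * exp (-F z)) (hf.mul hFd.neg.cexp) ?_ hz hz0
    intro x hx
    have h1 : HasDerivAt f (deriv f x) x :=
      (hf.differentiableAt (isOpen_ball.mem_nhds hx)).hasDerivAt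
    have h2 := h1.mul (hF x hx).neg.cexp
    simp only [Pi.zero_apply]
    refine Eq.trans h2.deriv ?_
    have := h0 x hx
    field_simp
    ring
  rw [hF0, exp_neg, exp_neg, exp_log (h0 c hz0), mul_inv_cancel₀ (h0 c hz0)] at hc
  have := mul_inv_eq_one₀ (exp_ne_zero (F z)) |>.1 hc
  exact this.symm

/-- the gradient estimate for functions with positive real part -/
theorem deriv_le_of_re_pos {c : ℂ} {r : ℝ} (hr : 0 < r) {g : ℂ → ℂ}
    (hg : DifferentiableOn ℂ g (ball c r)) (h0 : ∀ z ∈ ball c r, 0 < (g z).re) :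
    ‖deriv g c‖ * r ≤ 2 * (g c).re := by
  have hcb : c ∈ ball c r := mem_ball_self hr
  have hgc := h0 c hcb
  have hne : ∀ z ∈ ball c r, g z + (starRingEnd ℂ) (g c) ≠ 0 := by
    intro z hz h
    have h1 := congrArg Complex.re h
    rw [add_re, conj_re, zero_re] at h1
    linarith [h0 z hz]
  set w : ℂ → ℂ := fun z => (g z - g c) / (g z + (starRingEnd ℂ) (g c)) with hw
  have hwd : DifferentiableOn ℂ w (ball c r) :=
    (hg.sub_const _).div (hg.add_const _) hne
  have hwc : w c = 0 := by simp [hw]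
  have hmaps : MapsTo w (ball c r) (closedBall (w c) 1) := by
    intro z hz
    rw [hwc, mem_closedBall_zero_iff, hw]
    simp only
    rw [norm_div, div_le_one (norm_pos_iff.mpr (hne z hz))]
    have h1 := h0 z hz
    have h2 : normSq (g z - g c) ≤ normSq (g z + (starRingEnd ℂ) (g c)) := by
      rw [normSq_apply, normSq_apply]
      simp only [sub_re, sub_im, add_re, add_im, conj_re, conj_im]
      nlinarith [mul_pos h1 hgc]
    rw [← Complex.sq_norm, ← Complex.sq_norm] at h2
    exact abs_le_of_sq_le_sq' h2 (norm_nonneg _) |>.2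
  have h3 := norm_deriv_le_div_of_mapsTo_ball hwd hmaps hr
  have hgd : HasDerivAt g (deriv g c) c :=
    (hg.differentiableAt (isOpen_ball.mem_nhds hcb)).hasDerivAt
  have h4 : HasDerivAt w (deriv g c / (2 * (g c).re : ℝ)) c := by
    have h5 := (hgd.sub_const (g c)).div (hgd.add_const ((starRingEnd ℂ) (g c))) (hne c hcb)
    have h6 : g c + (starRingEnd ℂ) (g c) = ((2 * (g c).re : ℝ) : ℂ) := by
      rw [Complex.add_conj]
    have h7 : ((2 * (g c).re : ℝ) : ℂ) ≠ 0 := by
      rw [ofReal_ne_zero]; linarith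
    have h8 : HasDerivAt w _ c := h5
    refine h8.congr_deriv ?_
    rw [h6]
    field_simp
    ring
  rw [h4.deriv, norm_div, Complex.norm_real, Real.norm_eq_abs, abs_of_pos (by linarith)] at h3
  rw [div_le_div_iff₀ (by linarith) hr] at h3
  linarith

/-- the gradient estimate for `log |f|` when `|f| > 1` -/
theorem deriv_le_of_norm_gt {c : ℂ} {r : ℝ} (hr : 0 < r) {f : ℂ → ℂ}
    (hf : DifferentiableOn ℂ f (ball c r)) (h0 : ∀ z ∈ ball c r, 1 < ‖f z‖) :
    ‖deriv f c‖ * r ≤ 2 * (‖f c‖ * Real.log ‖f c‖) := by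
  have hcb : c ∈ ball c r := mem_ball_self hr
  obtain ⟨g, hg, hgf⟩ := exists_log_ball hr hf (fun z hz => by
    have := h0 z hz
    exact norm_pos_iff.mp (by linarith))
  have hre : ∀ z ∈ ball c r, (g z).re = Real.log ‖f z‖ := by
    intro z hz
    rw [← hgf z hz, Complex.norm_exp, Real.log_exp]
  have h1 := deriv_le_of_re_pos hr hg (fun z hz => by
    rw [hre z hz]; exact Real.log_pos (h0 z hz))
  have hgd : HasDerivAt g (deriv g c) c :=
    (hg.differentiableAt (isOpen_ball.mem_nhds hcb)).hasDerivAt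
  have h2 : deriv f c = f c * deriv g c := by
    have h3 : f =ᶠ[nhds c] fun z => exp (g z) := by
      filter_upwards [isOpen_ball.mem_nhds hcb] with z hz
      rw [hgf z hz]
    rw [h3.deriv_eq, hgd.cexp.deriv, hgf c hcb]
  rw [h2, norm_mul, ← hre c hcb]
  have h4 := norm_nonneg (f c)
  nlinarith

end Pool.Agent.T9h9.Cusp
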