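import Mathlib
import Pool.Prelude.Def_F_c31e40fa
import Pool.Agent.H712R2.MultiCoarse2
import Pool.Agent.T9h9.Cusp.Harnack

set_option autoImplicit false

open Complex Set Metric N62a1eb23 Pool.Agent.H712R2

namespace Pool.Agent.T9h9.Cusp

/-- the rescaled real critical orbit -/
noncomputable def v (d : ℕ) (τ : ℝ) : ℕ → ℝ
  | 0 => -d
  | k + 1 => (1 + v d τ k / d) ^ d - 1 + τ

/-- its derivative with respect to the parameter -/
noncomputable def D (d : ℕ) (τ : ℝ) : ℕ → ℝ
  | 0 => 0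
  | k + 1 => (1 + v d τ k / d) ^ (d - 1) * D d τ k + 1

/-- the parameter -/
noncomputable def T (d : ℕ) (τ : ℝ) : ℝ := rr d + sr d * τ / d

theorem v_zero (d : ℕ) (τ : ℝ) : v d τ 0 = -d := rfl
theorem v_succ (d : ℕ) (τ : ℝ) (k : ℕ) : v d τ (k + 1) = (1 + v d τ k / d) ^ d - 1 + τ := rfl
theorem D_succ (d : ℕ) (τ : ℝ) (k : ℕ) :
    D d τ (k + 1) = (1 + v d τ k / d) ^ (d - 1) * D d τ k + 1 := rfl

theorem y_nonneg {d : ℕ} (hd : 2 ≤ d) {τ : ℝ} (hτ : 0 ≤ τ) (k : ℕ) : 0 ≤ 1 + v d τ k / d := by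
  have hdr : (2:ℝ) ≤ d := by exact_mod_cast hd
  induction k with
  | zero =>
    rw [v_zero, neg_div, div_self (by linarith)]; norm_num
  | succ k ih =>
    rw [v_succ]
    have h1 : 0 ≤ (1 + v d τ k / d) ^ d := pow_nonneg ih d
    have h2 : (-1:ℝ) ≤ ((1 + v d τ k / d) ^ d - 1 + τ) / d := by
      rw [le_div_iff₀ (by linarith)]; linarith
    linarith

theorem P_T {d : ℕ} (hd : 2 ≤ d) (τ : ℝ) (k : ℕ) :
    P d k (T d τ : ℂ) = ((sr d * (1 + v d τ k / d) : ℝ) : ℂ) := by
  have hdr : (2:ℝ) ≤ d := by exact_mod_cast hd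
  induction k with
  | zero =>
    rw [P_zero, v_zero, neg_div, div_self (by linarith)]; simp
  | succ k ih =>
    rw [P_succ, ih, ← ofReal_pow, ← ofReal_add]
    congr 1
    rw [mul_pow, sr_pow' hd, v_succ, T, rr_eq hd]
    have : (d:ℝ) ≠ 0 := by linarith
    field_simp
    ring

theorem hasDerivAt_P {d : ℕ} (hd : 2 ≤ d) (τ : ℝ) (k : ℕ) :
    HasDerivAt (P d k) (D d τ k : ℂ) (T d τ : ℂ) := by
  have hdr : (2:ℝ) ≤ d := by exact_mod_cast hd
  induction k with
  | zero =>
    have h1 : P d 0 = fun _ => (0:ℂ) := by funext c; exact P_zero d c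
    rw [h1]
    simpa [D] using hasDerivAt_const (T d τ : ℂ) (0:ℂ)
  | succ k ih =>
    have h1 : P d (k + 1) = fun c => (P d k c) ^ d + c := by funext c; exact P_succ d k c
    rw [h1]
    have h2 := (ih.pow d).add (hasDerivAt_id (T d τ : ℂ))
    refine h2.congr_deriv ?_
    rw [P_T hd, D_succ]
    have h3 : (d:ℝ) * (sr d) ^ (d - 1) = 1 := by
      rw [sr_pow hd]
      have : (d:ℝ) ≠ 0 := by linarith
      field_simp
    have h4 : (d:ℂ) * (((sr d * (1 + v d τ k / d) : ℝ) : ℂ)) ^ (d - 1) =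
        (((1 + v d τ k / d) ^ (d - 1) : ℝ) : ℂ) := by
      rw [← ofReal_pow, mul_pow, ← ofReal_natCast, ← ofReal_mul, ← mul_assoc, h3, one_mul]
    rw [h4]
    push_cast
    ring

theorem D_nonneg {d : ℕ} (hd : 2 ≤ d) {τ : ℝ} (hτ : 0 ≤ τ) (k : ℕ) : 0 ≤ D d τ k := by
  induction k with
  | zero => exact le_rfl
  | succ k ih =>
    rw [D_succ]
    have := mul_nonneg (pow_nonneg (y_nonneg hd hτ k) (d - 1)) ih
    linarith

theorem D_pos {d : ℕ} (hd : 2 ≤ d) {τ : ℝ} (hτ : 0 ≤ τ) {k : ℕ} (hk : 1 ≤ k) : 1 ≤ D d τ k := by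
  obtain ⟨k, rfl⟩ : ∃ m, k = m + 1 := ⟨k - 1, by omega⟩
  rw [D_succ]
  have := mul_nonneg (pow_nonneg (y_nonneg hd hτ k) (d - 1)) (D_nonneg hd hτ k)
  linarith

/-- the real orbit -/
noncomputable def XX (d : ℕ) (τ : ℝ) (k : ℕ) : ℝ := sr d * (1 + v d τ k / d)

theorem XX_succ {d : ℕ} (hd : 2 ≤ d) (τ : ℝ) (k : ℕ) :
    XX d τ (k + 1) = XX d τ k ^ d + T d τ := by
  have h := P_T hd τ (k + 1)
  rw [P_succ, P_T hd τ k, ← ofReal_pow, ← ofReal_add] at h
  exact (ofReal_injective h).symm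

theorem D_succ' {d : ℕ} (hd : 2 ≤ d) (τ : ℝ) (k : ℕ) :
    D d τ (k + 1) = d * XX d τ k ^ (d - 1) * D d τ k + 1 := by
  have hdr : (2:ℝ) ≤ d := by exact_mod_cast hd
  rw [D_succ, XX, mul_pow, sr_pow hd]
  have : (d:ℝ) ≠ 0 := by linarith
  field_simp

theorem T_pos {d : ℕ} (hd : 2 ≤ d) {τ : ℝ} (hτ : 0 ≤ τ) : 0 < T d τ := by
  have h1 := rr_pos hd
  have h2 := sr_pos d
  have : 0 ≤ sr d * τ / d := by positivity
  unfold T; linarith

/-- growth after the orbit has reached `2` -/
theorem growth {d : ℕ} (hd : 2 ≤ d) {τ : ℝ} (hτ : 0 ≤ τ) (hT : T d τ ≤ 1) {j : ℕ}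
    (hj : 2 ≤ XX d τ j) (m : ℕ) :
    2 ≤ XX d τ (j + m) ∧
    D d τ j * ((XX d τ (j + m) + 1) * Real.log (2 * XX d τ (j + m))) ≤
      D d τ (j + m) * ((XX d τ j + 1) * Real.log (2 * XX d τ j)) := by
  have hdr : (2:ℝ) ≤ d := by exact_mod_cast hd
  induction m with
  | zero => exact ⟨hj, le_rfl⟩
  | succ m ih =>
    obtain ⟨h1, h2⟩ := ih
    set x := XX d τ (j + m) with hx
    have hT0 := T_pos hd hτ
    have hs : XX d τ (j + (m + 1)) = x ^ d + T d τ := XX_succ hd τ (j + m)
    have hx1 : 2 ≤ x ^ (d - 1) := by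
      calc (2:ℝ) ≤ x := h1
        _ = x ^ 1 := (pow_one x).symm
        _ ≤ x ^ (d - 1) := pow_le_pow_right₀ (by linarith) (by omega)
    have hxd : x ^ d = x ^ (d - 1) * x := by rw [← pow_succ]; congr 1; omega
    have hxd2 : 2 ≤ x ^ d := by rw [hxd]; nlinarith
    refine ⟨by rw [hs]; linarith, ?_⟩
    rw [hs]
    have hDs : D d τ (j + (m + 1)) = d * x ^ (d - 1) * D d τ (j + m) + 1 := D_succ' hd τ (j + m)
    rw [hDs]
    have hlogx : 0 < Real.log (2 * x) := Real.log_pos (by linarith)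
    have hlogj : 0 < Real.log (2 * XX d τ j) := Real.log_pos (by linarith)
    have h3 : Real.log (2 * (x ^ d + T d τ)) ≤ d * Real.log (2 * x) := by
      rw [← Real.log_pow]
      apply Real.log_le_log (by positivity)
      rw [mul_pow]
      have h4 : (4:ℝ) ≤ 2 ^ d := by
        calc (4:ℝ) = 2 ^ 2 := by norm_num
          _ ≤ 2 ^ d := pow_le_pow_right₀ (by norm_num) hd
      nlinarith
    have h5 : x ^ d + T d τ + 1 ≤ x ^ (d - 1) * (x + 1) := by
      rw [hxd]; nlinarith
    have h6 : (x ^ d + T d τ + 1) * Real.log (2 * (x ^ d + T d τ)) ≤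
        (d * x ^ (d - 1)) * ((x + 1) * Real.log (2 * x)) := by
      calc (x ^ d + T d τ + 1) * Real.log (2 * (x ^ d + T d τ))
          ≤ (x ^ (d - 1) * (x + 1)) * (d * Real.log (2 * x)) := by
            apply mul_le_mul h5 h3 (Real.log_nonneg (by linarith)) (by positivity)
        _ = _ := by ring
    have hDj := D_nonneg hd hτ j
    have hdx : 0 ≤ (d:ℝ) * x ^ (d - 1) := by positivity
    calc D d τ j * ((x ^ d + T d τ + 1) * Real.log (2 * (x ^ d + T d τ)))
        ≤ D d τ j * ((d * x ^ (d - 1)) * ((x + 1) * Real.log (2 * x))) :=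
          mul_le_mul_of_nonneg_left h6 hDj
      _ = (d * x ^ (d - 1)) * (D d τ j * ((x + 1) * Real.log (2 * x))) := by ring
      _ ≤ (d * x ^ (d - 1)) * (D d τ (j + m) * ((XX d τ j + 1) * Real.log (2 * XX d τ j))) :=
          mul_le_mul_of_nonneg_left h2 hdx
      _ ≤ _ := by
          have : 0 ≤ (XX d τ j + 1) * Real.log (2 * XX d τ j) := by
            apply mul_nonneg (by linarith) hlogj.le
          nlinarith

theorem differentiable_P (d k : ℕ) : Differentiable ℂ (P d k) := by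
  induction k with
  | zero =>
    have h1 : P d 0 = fun _ => (0:ℂ) := by funext c; exact P_zero d c
    rw [h1]; exact differentiable_const _
  | succ k ih =>
    have h1 : P d (k + 1) = fun c => (P d k c) ^ d + c := by funext c; exact P_succ d k c
    rw [h1]
    exact (ih.pow d).add differentiable_id

/-- uniform escape on compact sets -/
theorem uniform_escape {d : ℕ} (hd : 2 ≤ d) {K : Set ℂ} (hK : IsCompact K)
    (hKM : Disjoint K (multibrotSet d)) :
    ∃ m : ℕ, ∀ k, m ≤ k → ∀ c ∈ K, 2 < ‖P d k c‖ := by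
  have hstep : ∀ k : ℕ, 1 ≤ k → ∀ c : ℂ, 2 < ‖P d k c‖ → ∀ i, 2 < ‖P d (k + i) c‖ := by
    intro k hk c h i
    exact h.trans_le (esc_mono hd h (esc_of_gt hd hk h) i)
  obtain ⟨m, hm⟩ := hK.elim_directed_cover (fun k : ℕ => {c : ℂ | 2 < ‖P d (k + 1) c‖})
    (fun k => isOpen_lt continuous_const (continuous_P d (k + 1)).norm)
    (by
      intro c hc
      have h1 : c ∉ multibrotSet d := Set.disjoint_left.mp hKM hc
      rw [mem_multibrot_iff hd] at h1
      push Not at h1
      obtain ⟨k, hk⟩ := h1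
      rw [Set.mem_iUnion]
      refine ⟨k, ?_⟩
      have hk1 : 1 ≤ k := by
        rcases Nat.eq_zero_or_pos k with h | h
        · rw [h, P_zero, norm_zero] at hk; linarith
        · exact h
      exact hstep k hk1 c hk 1)
    (by
      intro a b
      refine ⟨max a b, ?_, ?_⟩
      · intro c hc
        have := hstep (a + 1) (by omega) c hc (max a b - a)
        simp only [Set.mem_ofPred_eq]
        convert this using 3
        have := le_max_left a b
        omega
      · intro c hc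
        have := hstep (b + 1) (by omega) c hc (max a b - b)
        simp only [Set.mem_ofPred_eq]
        convert this using 3
        have := le_max_right a b
        omega)
  refine ⟨m + 1, fun k hk c hc => ?_⟩
  have := hstep (m + 1) (by omega) c (hm hc) (k - (m + 1))
  convert this using 3
  omega

theorem zero_mem {d : ℕ} (hd : 2 ≤ d) : (0:ℂ) ∈ multibrotSet d :=
  disc_subset hd (by rw [norm_zero]; exact (rr_pos hd).le)

/-- **Points of the Multibrot set near a real escaping parameter.** -/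
theorem exists_near {d : ℕ} (hd : 2 ≤ d) {τ : ℝ} (hτ : 0 ≤ τ) (hT : T d τ ≤ 1) {j : ℕ}
    (hj : 2 ≤ XX d τ j) :
    ∃ x ∈ multibrotSet d, dist x (T d τ : ℂ) ≤
      2 * ((XX d τ j + 1) * Real.log (2 * XX d τ j)) / D d τ j := by
  obtain ⟨x, hx, hxd⟩ := (isCompact_multibrot hd).exists_infDist_eq_dist
    (isConnected_multibrot hd).nonempty (T d τ : ℂ)
  refine ⟨x, hx, ?_⟩
  by_contra hcon
  push Not at hcon
  have hj1 : 1 ≤ j := by
    rcases Nat.eq_zero_or_pos j with h | h
    · subst h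
      have h0 : XX d τ 0 = 0 := by
        have hdr : (2:ℝ) ≤ d := by exact_mod_cast hd
        rw [XX, v_zero, neg_div, div_self (by linarith)]; ring
      rw [h0] at hj; linarith
    · exact h
  have hD := D_pos hd hτ hj1
  set ρ := 2 * ((XX d τ j + 1) * Real.log (2 * XX d τ j)) / D d τ j with hρ
  obtain ⟨r, hr1, hr2⟩ := exists_between hcon
  have hlog : 0 < Real.log (2 * XX d τ j) := Real.log_pos (by linarith)
  have hρ0 : 0 < ρ := by
    rw [hρ]; apply div_pos _ (by linarith)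
    apply mul_pos (by norm_num)
    apply mul_pos (by linarith) hlog
  have hr0 : 0 < r := hρ0.trans hr1
  have hdisj : Disjoint (closedBall (T d τ : ℂ) r) (multibrotSet d) := by
    rw [Set.disjoint_left]
    intro c hc hcM
    have h1 := infDist_le_dist_of_mem (x := (T d τ : ℂ)) hcM
    rw [mem_closedBall, dist_comm] at hc
    rw [dist_comm] at hr2
    rw [hxd] at h1
    linarith
  obtain ⟨m, hm⟩ := uniform_escape hd (isCompact_closedBall _ _) hdisj
  set k := m with hk
  have h2 := hm (j + k) (by omega)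
  have h3 := deriv_le_of_norm_gt hr0 (f := P d (j + k)) (c := (T d τ : ℂ))
    (differentiable_P d _).differentiableOn
    (fun z hz => by
      have := h2 z (ball_subset_closedBall hz)
      linarith)
  rw [(hasDerivAt_P hd τ (j + k)).deriv, P_T hd, norm_real, norm_real, Real.norm_eq_abs,
    Real.norm_eq_abs, abs_of_nonneg (D_nonneg hd hτ _)] at h3
  change D d τ (j + k) * r ≤ 2 * (|XX d τ (j + k)| * Real.log |XX d τ (j + k)|) at h3
  obtain ⟨g1, g2⟩ := growth hd hτ hT hj k
  set x' := XX d τ (j + k) with hx'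
  rw [abs_of_pos (by linarith)] at h3
  have h4 : x' * Real.log x' ≤ (x' + 1) * Real.log (2 * x') := by
    have h5 : Real.log x' ≤ Real.log (2 * x') := Real.log_le_log (by linarith) (by linarith)
    have h6 : 0 ≤ Real.log x' := Real.log_nonneg (by linarith)
    nlinarith
  have hDk : 1 ≤ D d τ (j + k) := D_pos hd hτ (by omega)
  have h7 : D d τ (j + k) * ρ = 2 * (D d τ (j + k) * ((XX d τ j + 1) * Real.log (2 * XX d τ j))) /
      D d τ j := by rw [hρ]; ring
  have h8 : 2 * ((x' + 1) * Real.log (2 * x')) ≤ D d τ (j + k) * ρ := by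
    rw [h7, le_div_iff₀ (by linarith)]
    linarith
  have h9 : D d τ (j + k) * ρ < D d τ (j + k) * r := mul_lt_mul_of_pos_left hr1 (by linarith)
  linarith

theorem P_conj (d k : ℕ) (c : ℂ) : P d k ((starRingEnd ℂ) c) = (starRingEnd ℂ) (P d k c) := by
  induction k with
  | zero => simp [P_zero]
  | succ k ih => rw [P_succ, P_succ, ih, map_add, map_pow]

theorem conj_mem {d : ℕ} (hd : 2 ≤ d) {c : ℂ} (hc : c ∈ multibrotSet d) :
    (starRingEnd ℂ) c ∈ multibrotSet d := by
  rw [mem_multibrot_iff hd] at hc ⊢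
  intro k
  rw [P_conj, Complex.norm_conj]
  exact hc k

/-- **Pairs of complex conjugate points of the Multibrot set on both sides of the cusp ray.** -/
theorem exists_pair {d : ℕ} (hd : 2 ≤ d) {τ : ℝ} (hτ : 0 < τ) (hT : T d τ ≤ 1) {j : ℕ}
    (hj : XX d τ j = 2) (hsm : 9 / D d τ j ≤ (sr d * τ / d) / 2) :
    ∃ x ∈ multibrotSet d, x ≠ (starRingEnd ℂ) x ∧ dist x ((starRingEnd ℂ) x) ≤ 18 / D d τ j ∧
      ∀ S : Set ℂ, S ⊆ multibrotSet d → IsPreconnected S → x ∈ S → (starRingEnd ℂ) x ∈ S →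
        (sr d * τ / d) / 2 ≤ Metric.diam S := by
  obtain ⟨x, hx, hxd⟩ := exists_near hd hτ.le hT hj.ge
  have hj1 : 1 ≤ j := by
    rcases Nat.eq_zero_or_pos j with h | h
    · subst h
      have h0 : XX d τ 0 = 0 := by
        have hdr : (2:ℝ) ≤ d := by exact_mod_cast hd
        rw [XX, v_zero, neg_div, div_self (by linarith)]; ring
      rw [h0] at hj; linarith
    · exact h
  have hD := D_pos hd hτ.le hj1
  have hlog4 : Real.log 4 ≤ 3 / 2 := by
    have h1 : Real.log 4 = 2 * Real.log 2 := by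
      rw [show (4:ℝ) = 2 ^ 2 by norm_num, Real.log_pow]; norm_num
    have := Real.log_two_lt_d9
    rw [h1]
    linarith
  have hdist : dist x (T d τ : ℂ) ≤ 9 / D d τ j := by
    refine hxd.trans ?_
    rw [hj, show (2:ℝ) * 2 = 4 by norm_num]
    apply div_le_div_of_nonneg_right _ (by linarith)
    linarith
  have hdr : (2:ℝ) ≤ d := by exact_mod_cast hd
  have hpos : 0 < sr d * τ / d := by
    have := sr_pos d
    positivity
  have hre : |x.re - T d τ| ≤ 9 / D d τ j := by
    have h1 := abs_re_le_norm (x - (T d τ : ℂ))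
    rw [sub_re, ofReal_re] at h1
    rw [dist_eq_norm] at hdist
    linarith
  have him : |x.im| ≤ 9 / D d τ j := by
    have h1 := abs_im_le_norm (x - (T d τ : ℂ))
    rw [sub_im, ofReal_im, sub_zero] at h1
    rw [dist_eq_norm] at hdist
    linarith
  have hTrr : T d τ - rr d = sr d * τ / d := by unfold T; ring
  have hxre : rr d + (sr d * τ / d) / 2 ≤ x.re := by
    have := (abs_le.mp hre).1
    linarith
  have hreal : ∀ p : ℂ, p ∈ multibrotSet d → p.im = 0 → p.re ≤ rr d := by
    intro p hp hp0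
    by_contra hcon
    push Not at hcon
    have h1 : p = (p.re : ℂ) := by apply Complex.ext <;> simp [hp0]
    rw [h1] at hp
    exact real_escape hd hcon hp
  have him0 : x.im ≠ 0 := by
    intro h0
    have := hreal x hx h0
    linarith
  refine ⟨x, hx, ?_, ?_, ?_⟩
  · intro h
    have h1 := congrArg Complex.im h
    rw [conj_im] at h1
    apply him0; linarith
  · have h1 : dist x ((starRingEnd ℂ) x) = 2 * |x.im| := by
      rw [dist_eq_norm, Complex.sub_conj]
      simp
    rw [h1]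
    have : 18 / D d τ j = 2 * (9 / D d τ j) := by ring
    rw [this]; linarith
  · intro S hS hSc hxS hcS
    have hb : Bornology.IsBounded S := (isCompact_multibrot hd).isBounded.subset hS
    have himg : IsPreconnected (Complex.im '' S) := hSc.image _ Complex.continuous_im.continuousOn
    have h0 : (0:ℝ) ∈ Complex.im '' S := by
      have ha : x.im ∈ Complex.im '' S := ⟨x, hxS, rfl⟩
      have hb' : -x.im ∈ Complex.im '' S := ⟨_, hcS, by rw [conj_im]⟩
      rcases lt_or_gt_of_ne him0 with h | h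
      · exact himg.Icc_subset ha hb' ⟨h.le, by linarith⟩
      · exact himg.Icc_subset hb' ha ⟨by linarith, h.le⟩
    obtain ⟨p, hpS, hp0⟩ := h0
    have hpr := hreal p (hS hpS) hp0
    have h2 := Metric.dist_le_diam_of_mem hb hxS hpS
    have h3 := abs_re_le_norm (x - p)
    rw [sub_re] at h3
    rw [dist_eq_norm] at h2
    have h4 := le_abs_self (x.re - p.re)
    linarith

end Pool.Agent.T9h9.Cusp
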