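import Mathlib
import Pool.Agent.T9h9.Cusp.Near

set_option autoImplicit false

open Complex Set Metric N62a1eb23 Pool.Agent.H712R2

namespace Pool.Agent.T9h9.Cusp

/-! ### The map `x ↦ (1 + x / d) ^ d` -/

theorem E_ge {d : ℕ} (hd : 2 ≤ d) {x : ℝ} (hx : 0 ≤ 1 + x / d) : 1 + x ≤ (1 + x / d) ^ d := by
  have hdr : (2:ℝ) ≤ d := by exact_mod_cast hd
  have h := one_add_mul_le_pow (a := x / d) (by linarith) d
  have h2 : (d:ℝ) * (x / d) = x := by
    have : (d:ℝ) ≠ 0 := by linarith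
    field_simp
  rwa [h2] at h

theorem E_le {d : ℕ} (hd : 2 ≤ d) {x : ℝ} (hx : 0 ≤ 1 + x / d) : (1 + x / d) ^ d ≤ Real.exp x := by
  have hdr : (2:ℝ) ≤ d := by exact_mod_cast hd
  have h1 : 1 + x / d ≤ Real.exp (x / d) := by
    have := Real.add_one_le_exp (x / d); linarith
  have h2 := pow_le_pow_left₀ hx h1 d
  rw [← Real.exp_nat_mul] at h2
  have h3 : (d:ℝ) * (x / d) = x := by
    have : (d:ℝ) ≠ 0 := by linarith
    field_simp
  rwa [h3] at h2

theorem E'_le {d : ℕ} (hd : 2 ≤ d) {x : ℝ} (hx : 0 ≤ x) :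
    (1 + x / d) ^ (d - 1) ≤ Real.exp x := by
  have hdr : (2:ℝ) ≤ d := by exact_mod_cast hd
  have h0 : 0 ≤ x / d := by positivity
  refine le_trans ?_ (E_le hd (by linarith))
  exact pow_le_pow_right₀ (by linarith) (by omega)

theorem quad_le_pow {x : ℝ} (hx : 0 ≤ x) (n : ℕ) :
    1 + n * x + n * (n - 1) / 2 * x ^ 2 ≤ (1 + x) ^ n := by
  induction n with
  | zero => simp
  | succ n ih =>
    rw [pow_succ]
    have h1 := mul_le_mul_of_nonneg_right ih (show 0 ≤ 1 + x by linarith)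
    refine le_trans ?_ h1
    push_cast
    have hn : (0:ℝ) ≤ n * (n - 1) := by
      rcases Nat.eq_zero_or_pos n with h | h
      · subst h; simp
      · have : (1:ℝ) ≤ n := by exact_mod_cast h
        nlinarith
    have h3 : 0 ≤ (n:ℝ) * (n - 1) / 2 * x ^ 3 := by positivity
    nlinarith

theorem E_quad {d : ℕ} (hd : 2 ≤ d) {x : ℝ} (hx : 0 ≤ x) :
    1 + x + x ^ 2 / 4 ≤ (1 + x / d) ^ d := by
  have hdr : (2:ℝ) ≤ d := by exact_mod_cast hd
  have hd0 : (d:ℝ) ≠ 0 := by linarith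
  have h := quad_le_pow (x := x / d) (by positivity) d
  have h2 : 1 + (d:ℝ) * (x / d) + d * (d - 1) / 2 * (x / d) ^ 2 =
      1 + x + (1 / 2 - 1 / (2 * d)) * x ^ 2 := by
    field_simp
  rw [h2] at h
  have h3 : 1 / (2 * (d:ℝ)) ≤ 1 / 4 := by
    apply one_div_le_one_div_of_le (by norm_num); linarith
  nlinarith [sq_nonneg x]

/-- the mean value inequality -/
theorem E_sub_le {d : ℕ} (hd : 2 ≤ d) {u w : ℝ} (hu : 0 ≤ 1 + u / d) (huw : u ≤ w) :
    (1 + w / d) ^ d - (1 + u / d) ^ d ≤ (1 + w / d) ^ (d - 1) * (w - u) := by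
  have hdr : (2:ℝ) ≤ d := by exact_mod_cast hd
  have hd0 : (d:ℝ) ≠ 0 := by linarith
  set a := 1 + u / d with ha
  set b := 1 + w / d with hb
  have hab : a ≤ b := by
    have := div_le_div_of_nonneg_right huw (show (0:ℝ) ≤ d by linarith)
    linarith
  have hwu : w - u = d * (b - a) := by rw [ha, hb]; field_simp; ring
  rw [hwu]
  rcases eq_or_lt_of_le (hu.trans hab) with h | h
  · have ha0 : a = 0 := le_antisymm (by rw [h]; exact hab) hu
    rw [← h, ha0]; simp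
  · have h1 := one_add_mul_le_pow (a := a / b - 1) (by
      have : 0 ≤ a / b := div_nonneg hu h.le
      linarith) d
    have h2 : 1 + (a / b - 1) = a / b := by ring
    rw [h2, div_pow, le_div_iff₀ (by positivity)] at h1
    have hbd : b ^ d = b ^ (d - 1) * b := by rw [← pow_succ]; congr 1; omega
    have h3 : (1 + (d:ℝ) * (a / b - 1)) * b ^ d = b ^ d - b ^ (d - 1) * (d * (b - a)) := by
      rw [hbd]; field_simp; ring
    linarith

/-! ### Monotonicity of the orbit -/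

theorem v_step {d : ℕ} (hd : 2 ≤ d) {τ : ℝ} (hτ : 0 ≤ τ) (k : ℕ) :
    v d τ k + τ ≤ v d τ (k + 1) := by
  rw [v_succ]
  have := E_ge hd (y_nonneg hd hτ k)
  linarith

theorem v_ge_mul {d : ℕ} (hd : 2 ≤ d) {τ : ℝ} (hτ : 0 ≤ τ) (k : ℕ) :
    -d + k * τ ≤ v d τ k := by
  induction k with
  | zero => simp [v_zero]
  | succ k ih =>
    have := v_step hd hτ k
    push_cast
    linarith

theorem v_mono {d : ℕ} (hd : 2 ≤ d) {τ : ℝ} (hτ : 0 ≤ τ) : Monotone (v d τ) := by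
  apply monotone_nat_of_le_succ
  intro k
  have := v_step hd hτ k
  linarith

theorem v_unbounded {d : ℕ} (hd : 2 ≤ d) {τ : ℝ} (hτ : 0 < τ) (A : ℝ) : ∃ k, A < v d τ k := by
  obtain ⟨k, hk⟩ := exists_nat_gt ((A + d) / τ)
  refine ⟨k, ?_⟩
  rw [div_lt_iff₀ hτ] at hk
  have := v_ge_mul hd hτ.le k
  linarith

theorem v_mono_param {d : ℕ} (hd : 2 ≤ d) {τ τ' : ℝ} (hτ : 0 ≤ τ) (h : τ ≤ τ') (k : ℕ) :
    v d τ k ≤ v d τ' k := by
  have hdr : (2:ℝ) ≤ d := by exact_mod_cast hd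
  induction k with
  | zero => exact le_rfl
  | succ k ih =>
    rw [v_succ, v_succ]
    have h1 : 1 + v d τ k / d ≤ 1 + v d τ' k / d := by
      have := div_le_div_of_nonneg_right ih (show (0:ℝ) ≤ d by linarith)
      linarith
    have h2 := pow_le_pow_left₀ (y_nonneg hd hτ k) h1 d
    linarith

theorem continuous_v (d k : ℕ) : Continuous (fun τ => v d τ k) := by
  induction k with
  | zero => exact continuous_const
  | succ k ih =>
    have h : (fun τ => v d τ (k + 1)) = fun τ => (1 + v d τ k / d) ^ d - 1 + τ := by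
      funext τ; rfl
    rw [h]
    fun_prop

/-! ### The derivative during the passage -/

theorem qstep {d : ℕ} (hd : 2 ≤ d) {τ : ℝ} (hτ : 0 < τ) {k : ℕ} {Q : ℝ} (hQ : 0 ≤ Q)
    (h : Q * (v d τ (k + 1) - v d τ k) ≤ D d τ k * (1 + v d τ k / d) ^ (d - 1)) :
    (Q + 1 / (v d τ (k + 1) - v d τ k)) * (v d τ (k + 2) - v d τ (k + 1)) ≤
      D d τ (k + 1) * (1 + v d τ (k + 1) / d) ^ (d - 1) := by
  have h1 := v_step hd hτ.le k
  set Δ := v d τ (k + 1) - v d τ k with hΔ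
  have hΔ0 : 0 < Δ := by linarith
  have h2 : v d τ (k + 2) - v d τ (k + 1) ≤ (1 + v d τ (k + 1) / d) ^ (d - 1) * Δ := by
    have h3 := E_sub_le hd (y_nonneg hd hτ.le k) (v_mono hd hτ.le (Nat.le_succ k))
    have h4 : v d τ (k + 2) = (1 + v d τ (k + 1) / d) ^ d - 1 + τ := rfl
    have h5 : v d τ (k + 1) = (1 + v d τ k / d) ^ d - 1 + τ := rfl
    rw [h4]
    simp only [Nat.succ_eq_add_one] at h3
    rw [hΔ]
    linarith
  have hy := pow_nonneg (y_nonneg hd hτ.le (k + 1)) (d - 1)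
  rw [D_succ]
  calc (Q + 1 / Δ) * (v d τ (k + 2) - v d τ (k + 1))
      ≤ (Q + 1 / Δ) * ((1 + v d τ (k + 1) / d) ^ (d - 1) * Δ) := by
        apply mul_le_mul_of_nonneg_left h2
        have : 0 < 1 / Δ := by positivity
        linarith
    _ = (Q * Δ + 1) * (1 + v d τ (k + 1) / d) ^ (d - 1) := by field_simp
    _ ≤ _ := by
        apply mul_le_mul_of_nonneg_right _ hy
        linarith

theorem q_mono {d : ℕ} (hd : 2 ≤ d) {τ : ℝ} (hτ : 0 < τ) {k : ℕ} {Q : ℝ} (hQ : 0 ≤ Q)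
    (h : Q * (v d τ (k + 1) - v d τ k) ≤ D d τ k * (1 + v d τ k / d) ^ (d - 1)) (i : ℕ) :
    Q * (v d τ (k + i + 1) - v d τ (k + i)) ≤
      D d τ (k + i) * (1 + v d τ (k + i) / d) ^ (d - 1) := by
  induction i with
  | zero => exact h
  | succ i ih =>
    have h1 := qstep hd hτ hQ ih
    have h2 := v_step hd hτ.le (k + i)
    have h3 := v_step hd hτ.le (k + i + 1)
    have h4 : 0 < 1 / (v d τ (k + i + 1) - v d τ (k + i)) := by
      apply one_div_pos.mpr; linarith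
    have h5 : k + (i + 1) = k + i + 1 := by ring
    rw [h5]
    have h6 : k + i + 1 + 1 = k + i + 2 := by ring
    rw [h6] at h3 ⊢
    nlinarith

/-- the slow passage -/
theorem slow {d : ℕ} (hd : 2 ≤ d) {τ : ℝ} (hτ : 0 < τ) {σ : ℝ} (_hσ : 0 < σ) (hσ1 : σ ≤ 1)
    (hστ : σ ^ 2 = τ) {i0 : ℕ} (h0 : 0 < v d τ i0) (h1 : v d τ i0 ≤ τ) (p : ℕ)
    (hp : (2 * p + 1) * τ ≤ σ) :
    v d τ (i0 + p) ≤ (2 * p + 1) * τ ∧
    (p / (2 * τ)) * (v d τ (i0 + p + 1) - v d τ (i0 + p)) ≤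
      D d τ (i0 + p) * (1 + v d τ (i0 + p) / d) ^ (d - 1) := by
  induction p with
  | zero =>
    refine ⟨by simpa using h1, ?_⟩
    have := mul_nonneg (D_nonneg hd hτ.le i0) (pow_nonneg (y_nonneg hd hτ.le i0) (d - 1))
    simpa using this
  | succ p ih =>
    push_cast at hp
    obtain ⟨i1, i2⟩ := ih (by nlinarith)
    have hpos : 0 < v d τ (i0 + p) := h0.trans_le (v_mono hd hτ.le (by omega))
    have hle : v d τ (i0 + p) ≤ σ := by nlinarith
    have hΔ : v d τ (i0 + p + 1) - v d τ (i0 + p) ≤ 2 * τ := by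
      rw [v_succ]
      have h2 := E_le hd (y_nonneg hd hτ.le (i0 + p))
      have h3 := Real.abs_exp_sub_one_sub_id_le (x := v d τ (i0 + p)) (by
        rw [abs_of_pos hpos]; linarith)
      have h4 := (abs_le.mp h3).2
      have h5 : v d τ (i0 + p) ^ 2 ≤ σ ^ 2 := pow_le_pow_left₀ hpos.le hle 2
      rw [hστ] at h5
      linarith
    refine ⟨?_, ?_⟩
    · have h6 : i0 + (p + 1) = i0 + p + 1 := by ring
      rw [h6]; push_cast
      linarith
    · have h7 := qstep hd hτ (Q := p / (2 * τ)) (by positivity) i2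
      have h8 := v_step hd hτ.le (i0 + p)
      have h9 : 1 / (2 * τ) ≤ 1 / (v d τ (i0 + p + 1) - v d τ (i0 + p)) :=
        one_div_le_one_div_of_le (by linarith) hΔ
      have h10 := v_step hd hτ.le (i0 + p + 1)
      have h6 : i0 + (p + 1) = i0 + p + 1 := by ring
      rw [h6]
      refine le_trans ?_ h7
      have h11 : i0 + p + 1 + 1 = i0 + p + 2 := by ring
      rw [h11] at h10 ⊢
      apply mul_le_mul_of_nonneg_right _ (by linarith)
      push_cast
      rw [add_div]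
      linarith

/-- the first positive point of the orbit -/
theorem exists_first_pos {d : ℕ} (hd : 2 ≤ d) {τ : ℝ} (hτ : 0 < τ) :
    ∃ i0, 0 < v d τ i0 ∧ v d τ i0 ≤ τ := by
  classical
  have hdr : (2:ℝ) ≤ d := by exact_mod_cast hd
  have hex : ∃ k, 0 < v d τ k := v_unbounded hd hτ 0
  refine ⟨Nat.find hex, Nat.find_spec hex, ?_⟩
  set i := Nat.find hex with hi
  have hi0 : i ≠ 0 := by
    intro h
    have h1 := Nat.find_spec hex
    rw [← hi, h, v_zero] at h1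
    linarith
  obtain ⟨k, hk⟩ := Nat.exists_eq_succ_of_ne_zero hi0
  have h2 : v d τ k ≤ 0 := by
    have := Nat.find_min hex (m := k) (by omega)
    linarith
  rw [hk, Nat.succ_eq_add_one, v_succ]
  have h3 : 1 + v d τ k / d ≤ 1 := by
    have := div_nonpos_of_nonpos_of_nonneg h2 (show (0:ℝ) ≤ d by linarith)
    linarith
  have h4 := pow_le_one₀ (n := d) (y_nonneg hd hτ.le k) h3
  linarith

/-- the first point of the orbit beyond `1` -/
theorem exists_first_one {d : ℕ} (hd : 2 ≤ d) {τ : ℝ} (hτ : 0 < τ) (hτ1 : τ ≤ 1 / 4) :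
    ∃ m, 1 ≤ v d τ m ∧ v d τ m ≤ 2 ∧ ∀ k < m, v d τ k < 1 := by
  classical
  have hdr : (2:ℝ) ≤ d := by exact_mod_cast hd
  have hex : ∃ k, 1 ≤ v d τ k := by
    obtain ⟨k, hk⟩ := v_unbounded hd hτ 1
    exact ⟨k, hk.le⟩
  refine ⟨Nat.find hex, Nat.find_spec hex, ?_, fun k hk => by
    have := Nat.find_min hex hk; linarith⟩
  set i := Nat.find hex with hi
  have hi0 : i ≠ 0 := by
    intro h
    have h1 := Nat.find_spec hex
    rw [← hi, h, v_zero] at h1
    linarith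
  obtain ⟨k, hk⟩ := Nat.exists_eq_succ_of_ne_zero hi0
  have h2 : v d τ k < 1 := by
    have := Nat.find_min hex (m := k) (by omega)
    linarith
  rw [hk, Nat.succ_eq_add_one, v_succ]
  have h3 : 1 + v d τ k / d ≤ 1 + 1 / d := by
    have := div_le_div_of_nonneg_right h2.le (show (0:ℝ) ≤ d by linarith)
    linarith
  have h4 := pow_le_pow_left₀ (y_nonneg hd hτ.le k) h3 d
  have h5 := E_le hd (x := 1) (by positivity)
  have h6 := Real.exp_one_lt_d9
  linarith

/-- the derivative after the passage -/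
theorem D_passage {d : ℕ} (hd : 2 ≤ d) {τ : ℝ} (hτ : 0 < τ) (hτ1 : τ ≤ 1 / 36) {m : ℕ}
    (h1 : 1 ≤ v d τ m) (h2 : v d τ m ≤ 2) :
    1 / (32 * Real.exp 2 * (τ * Real.sqrt τ)) ≤ D d τ m := by
  obtain ⟨i0, h3, h4⟩ := exists_first_pos hd hτ
  set σ := Real.sqrt τ with hσ
  have hσ0 : 0 < σ := Real.sqrt_pos.mpr hτ
  have hστ : σ ^ 2 = τ := Real.sq_sqrt hτ.le
  have hσ6 : σ ≤ 1 / 6 := by
    rw [hσ, Real.sqrt_le_left (by norm_num)]; norm_num; linarith
  have hσi : 6 ≤ 1 / σ := by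
    rw [le_div_iff₀ hσ0]; linarith
  set N := ⌊(1 / σ - 1) / 2⌋₊ with hN
  have hN1 : (N:ℝ) ≤ (1 / σ - 1) / 2 := Nat.floor_le (by linarith)
  have hN2 : (1 / σ - 1) / 2 < N + 1 := Nat.lt_floor_add_one _
  have hN3 : 1 / (4 * σ) ≤ N := by
    have : 1 / (4 * σ) = (1 / σ) / 4 := by field_simp
    rw [this]; linarith
  have hNτ : (2 * N + 1) * τ ≤ σ := by
    have h5 : 2 * (N:ℝ) + 1 ≤ 1 / σ := by linarith
    calc (2 * N + 1) * τ ≤ (1 / σ) * τ := mul_le_mul_of_nonneg_right h5 hτ.le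
      _ = σ := by rw [← hστ]; field_simp
  obtain ⟨s1, s2⟩ := slow hd hτ hσ0 (by linarith) hστ h3 h4 N hNτ
  have hlt : i0 + N ≤ m := by
    by_contra hcon
    push Not at hcon
    have := v_mono hd hτ.le hcon.le
    linarith
  have h6 := q_mono hd hτ (by positivity) s2 (m - (i0 + N))
  rw [show i0 + N + (m - (i0 + N)) = m by omega] at h6
  have hΔ : 1 / 4 ≤ v d τ (m + 1) - v d τ m := by
    rw [v_succ]
    have := E_quad hd (x := v d τ m) (by linarith)
    nlinarith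
  have hX : (1 + v d τ m / d) ^ (d - 1) ≤ Real.exp 2 :=
    (E'_le hd (by linarith)).trans (Real.exp_le_exp.mpr h2)
  have hD := D_nonneg hd hτ.le m
  have h7 : (N / (2 * τ)) * (1 / 4) ≤ D d τ m * Real.exp 2 := by
    calc (N / (2 * τ)) * (1 / 4) ≤ (N / (2 * τ)) * (v d τ (m + 1) - v d τ m) := by
          apply mul_le_mul_of_nonneg_left hΔ; positivity
      _ ≤ D d τ m * (1 + v d τ m / d) ^ (d - 1) := h6
      _ ≤ _ := mul_le_mul_of_nonneg_left hX hD
  have he : 0 < Real.exp 2 := Real.exp_pos 2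
  have h8 : 1 / (32 * (τ * σ)) ≤ (N / (2 * τ)) * (1 / 4) := by
    have h9 : (1 / (4 * σ)) / (2 * τ) * (1 / 4) ≤ (N / (2 * τ)) * (1 / 4) := by
      apply mul_le_mul_of_nonneg_right _ (by norm_num)
      exact div_le_div_of_nonneg_right hN3 (by positivity)
    refine le_trans (le_of_eq ?_) h9
    field_simp
    norm_num
  have h10 : 1 / (32 * Real.exp 2 * (τ * σ)) = 1 / (32 * (τ * σ)) / Real.exp 2 := by
    field_simp
  rw [h10, div_le_iff₀ he]
  linarith

end Pool.Agent.T9h9.Cusp
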