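import Mathlib
import Pool.Agent.T9h9.Cusp.Passage

set_option autoImplicit false

open Complex Set Metric N62a1eb23 Pool.Agent.H712R2

namespace Pool.Agent.T9h9.Cusp

/-- one step of the climb -/
theorem climb_step {d : ℕ} (hd : 2 ≤ d) {τ : ℝ} (hτ : 0 < τ) {l : ℕ} (h1 : 1 ≤ v d τ l) {b : ℝ}
    (hb0 : 0 ≤ b) (hb : b ≤ v d τ (l + 1) + 1 - τ) :
    D d τ l * b * Real.exp (-(4 * (v d τ (l + 1) - v d τ l) / d)) ≤ D d τ (l + 1) := by
  have hdr : (2:ℝ) ≤ d := by exact_mod_cast hd
  have hd0 : (d:ℝ) ≠ 0 := by linarith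
  have hD := D_nonneg hd hτ.le l
  set x := v d τ l with hx
  have hX0 : 0 < 1 + x / d := by positivity
  have hE : (1 + x / d) ^ d = (1 + x / d) ^ (d - 1) * (1 + x / d) := by
    rw [← pow_succ]; congr 1; omega
  have hv : v d τ (l + 1) + 1 - τ = (1 + x / d) ^ d := by rw [v_succ]; ring
  have hquad := E_quad hd (x := x) (by linarith)
  have hinc : x ≤ 4 * (v d τ (l + 1) - x) := by
    have : v d τ (l + 1) = (1 + x / d) ^ d - 1 + τ := by rw [v_succ]
    nlinarith
  have h2 : 1 + x / d ≤ Real.exp (x / d) := by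
    have := Real.add_one_le_exp (x / d); linarith
  have h3 : b * Real.exp (-(x / d)) ≤ (1 + x / d) ^ (d - 1) := by
    rw [Real.exp_neg, ← div_eq_mul_inv, div_le_iff₀ (Real.exp_pos _)]
    calc b ≤ (1 + x / d) ^ d := by rw [← hv]; exact hb
      _ = (1 + x / d) ^ (d - 1) * (1 + x / d) := hE
      _ ≤ _ := mul_le_mul_of_nonneg_left h2 (by positivity)
  have h4 : Real.exp (-(4 * (v d τ (l + 1) - x) / d)) ≤ Real.exp (-(x / d)) := by
    apply Real.exp_le_exp.mpr
    apply neg_le_neg
    exact div_le_div_of_nonneg_right hinc (by linarith)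
  rw [D_succ]
  calc D d τ l * b * Real.exp (-(4 * (v d τ (l + 1) - x) / d))
      ≤ D d τ l * b * Real.exp (-(x / d)) := by
        apply mul_le_mul_of_nonneg_left h4; positivity
    _ = D d τ l * (b * Real.exp (-(x / d))) := by ring
    _ ≤ D d τ l * (1 + x / d) ^ (d - 1) := mul_le_mul_of_nonneg_left h3 hD
    _ ≤ _ := by linarith

/-- the climb from `v_m ≥ 1` upwards -/
theorem climb {d : ℕ} (hd : 2 ≤ d) {τ : ℝ} (hτ : 0 < τ) (hτ1 : τ ≤ 1) {m : ℕ}
    (h1 : 1 ≤ v d τ m) (p : ℕ) :
    D d τ m * (∏ i ∈ Finset.range p, v d τ (m + 1 + i)) *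
      Real.exp (-(4 * (v d τ (m + p) - v d τ m) / d)) ≤ D d τ (m + p) := by
  induction p with
  | zero => simp
  | succ p ih =>
    rw [Finset.prod_range_succ]
    have h2 : 1 ≤ v d τ (m + p) := h1.trans (v_mono hd hτ.le (by omega))
    have h3 : 1 ≤ v d τ (m + 1 + p) := h1.trans (v_mono hd hτ.le (by omega))
    have h4 := climb_step hd hτ h2 (b := v d τ (m + p + 1)) (by
      rw [show m + p + 1 = m + 1 + p by ring]; linarith) (by linarith)
    rw [show m + (p + 1) = m + p + 1 by ring]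
    refine le_trans ?_ h4
    have h5 : Real.exp (-(4 * (v d τ (m + p + 1) - v d τ m) / d)) =
        Real.exp (-(4 * (v d τ (m + p) - v d τ m) / d)) *
        Real.exp (-(4 * (v d τ (m + p + 1) - v d τ (m + p)) / d)) := by
      rw [← Real.exp_add]; congr 1; ring
    rw [h5, show m + 1 + p = m + p + 1 by ring]
    have h6 : 0 ≤ v d τ (m + p + 1) := by
      rw [show m + p + 1 = m + 1 + p by ring]; linarith
    have h7 := mul_le_mul_of_nonneg_right ih h6
    have h8 := mul_le_mul_of_nonneg_right h7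
      (Real.exp_nonneg (-(4 * (v d τ (m + p + 1) - v d τ (m + p)) / d)))
    refine le_trans (le_of_eq ?_) h8
    ring

theorem sr_ge_half {d : ℕ} (hd : 2 ≤ d) : 1 / 2 ≤ sr d := by
  by_contra hcon
  push Not at hcon
  have h1 : sr d ^ (d - 1) < (1 / 2) ^ (d - 1) :=
    pow_lt_pow_left₀ hcon (sr_pos d).le (by omega)
  rw [sr_pow hd] at h1
  have h2 : (d:ℝ) ≤ 2 ^ (d - 1) := by
    have h3 : d - 1 < 2 ^ (d - 1) := Nat.lt_two_pow_self
    have h4 : d ≤ 2 ^ (d - 1) := by omega
    exact_mod_cast h4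
  have hdr : (2:ℝ) ≤ d := by exact_mod_cast hd
  have h5 : (1 / 2 : ℝ) ^ (d - 1) = 1 / 2 ^ (d - 1) := by rw [div_pow, one_pow]
  rw [h5] at h1
  have h6 : 1 / (2:ℝ) ^ (d - 1) ≤ 1 / d := one_div_le_one_div_of_le (by linarith) h2
  linarith

theorem inv_sr {d : ℕ} : 1 / sr d = Real.exp (Real.log d / (d - 1)) := by
  rw [sr, Real.exp_neg]; simp

/-- the last step before `2` -/
theorem last_step {d : ℕ} (hd : 2 ≤ d) {τ : ℝ} (hτ : 0 < τ) (hT : T d τ ≤ 1) {k : ℕ}
    (hk : XX d τ (k + 1) = 2) :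
    1 ≤ XX d τ k ∧ XX d τ k ^ d ≤ 2 ∧ d * D d τ k ≤ D d τ (k + 1) ∧ Real.log d ≤ v d τ k ∧
      1 ≤ v d τ k ∧ v d τ k ≤ 3 * d := by
  have hdr : (2:ℝ) ≤ d := by exact_mod_cast hd
  have hd0 : (d:ℝ) ≠ 0 := by linarith
  have hs := sr_pos d
  have hX0 : 0 ≤ XX d τ k := mul_nonneg hs.le (y_nonneg hd hτ.le k)
  have hT0 := T_pos hd hτ.le
  have h1 := XX_succ hd τ k
  rw [hk] at h1
  have hpow : XX d τ k ^ d = 2 - T d τ := by linarith
  have hX1 : 1 ≤ XX d τ k := by
    by_contra hcon
    push Not at hcon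
    have : XX d τ k ^ d < 1 := pow_lt_one₀ hX0 hcon (by omega)
    linarith
  have hX2 : XX d τ k ≤ 2 := by
    have : XX d τ k ^ 1 ≤ XX d τ k ^ d := pow_le_pow_right₀ hX1 (by omega)
    rw [pow_one] at this
    linarith
  have hv : v d τ k = d * (XX d τ k / sr d - 1) := by
    rw [XX]; field_simp; ring
  have hvge : d * (1 / sr d - 1) ≤ v d τ k := by
    rw [hv]
    apply mul_le_mul_of_nonneg_left _ (by linarith)
    have := div_le_div_of_nonneg_right hX1 hs.le
    linarith
  have hL : 0 ≤ Real.log d := Real.log_nonneg (by linarith)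
  have hexp : Real.log d / (d - 1) + 1 ≤ 1 / sr d := by
    rw [inv_sr]; exact Real.add_one_le_exp _
  have h3 : d * (Real.log d / (d - 1)) ≤ v d τ k := by
    refine le_trans ?_ hvge
    apply mul_le_mul_of_nonneg_left _ (by linarith)
    linarith
  have h4 : Real.log d ≤ d * (Real.log d / (d - 1)) := by
    rw [mul_div_assoc', le_div_iff₀ (by linarith)]
    nlinarith
  have h5 : 1 ≤ d * (Real.log d / (d - 1)) := by
    rw [mul_div_assoc', le_div_iff₀ (by linarith)]
    have h6 := Real.one_sub_inv_le_log_of_pos (show (0:ℝ) < d by linarith)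
    have h7 : (d:ℝ) * (1 - (d:ℝ)⁻¹) = d - 1 := by field_simp
    nlinarith
  refine ⟨hX1, by rw [hpow]; linarith, ?_, h4.trans h3, h5.trans h3, ?_⟩
  · rw [D_succ' hd]
    have hD := D_nonneg hd hτ.le k
    have h8 : 1 ≤ XX d τ k ^ (d - 1) := one_le_pow₀ hX1
    nlinarith [mul_nonneg (show (0:ℝ) ≤ d by linarith) hD]
  · rw [hv]
    have h9 : XX d τ k / sr d ≤ 4 := by
      rw [div_le_iff₀ hs]
      have := sr_ge_half hd
      linarith
    nlinarith

/-- comparison with the iterated logarithms -/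
theorem prod_log {d : ℕ} (hd : 2 ≤ d) {τ : ℝ} (hτ : 0 < τ) (hτ1 : τ ≤ 1) {m : ℕ}
    (hm1 : 1 ≤ v d τ m) (hm : ∀ k < m, v d τ k < 1) (k : ℕ) :
    ∀ (l : ℕ) (y : ℝ), m ≤ l + 1 → y ≤ v d τ l →
      (∀ i < k, 1 ≤ Real.log^[i] y) →
      ∏ i ∈ Finset.range k, Real.log^[i] y ≤ ∏ i ∈ Finset.Ico m (l + 1), v d τ i := by
  induction k with
  | zero =>
    intro l y _ _ _
    rw [Finset.prod_range_zero]
    have h := Finset.prod_le_prod (s := Finset.Ico m (l + 1)) (f := fun _ => (1:ℝ))
      (g := fun i => v d τ i) (fun _ _ => zero_le_one) (fun i hi => by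
        rw [Finset.mem_Ico] at hi
        exact hm1.trans (v_mono hd hτ.le hi.1))
    simpa using h
  | succ k ih =>
    intro l y hml hy hlog
    have hy1 : 1 ≤ y := by simpa using hlog 0 (by omega)
    have hv1 : 1 ≤ v d τ l := hy1.trans hy
    have hml' : m ≤ l := by
      by_contra hcon
      push Not at hcon
      have := hm l hcon
      linarith
    have hdr : (2:ℝ) ≤ d := by exact_mod_cast hd
    have hl0 : l ≠ 0 := by
      rintro rfl
      rw [v_zero] at hv1; linarith
    obtain ⟨l', rfl⟩ := Nat.exists_eq_succ_of_ne_zero hl0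
    rw [Nat.succ_eq_add_one] at *
    have hlv : Real.log y ≤ v d τ l' := by
      have h1 : y ≤ Real.exp (v d τ l') := by
        have h2 := E_le hd (y_nonneg hd hτ.le l')
        have h3 : v d τ (l' + 1) = (1 + v d τ l' / d) ^ d - 1 + τ := rfl
        linarith
      calc Real.log y ≤ Real.log (Real.exp (v d τ l')) := Real.log_le_log (by linarith) h1
        _ = _ := Real.log_exp _
    have h4 := ih l' (Real.log y) hml' hlv (fun i hi => by
      have := hlog (i + 1) (by omega)
      rwa [Function.iterate_succ_apply] at this)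
    rw [Finset.prod_range_succ', Finset.prod_Ico_succ_top hml']
    simp only [Function.iterate_succ_apply, Function.iterate_zero, id]
    apply mul_le_mul h4 hy (by linarith)
    apply Finset.prod_nonneg
    intro i hi
    rw [Finset.mem_Ico] at hi
    have := hm1.trans (v_mono hd hτ.le hi.1)
    linarith

/-- **Lower bound for the derivative at the parameters whose orbit hits `2`.** -/
theorem D_lower {d : ℕ} (hd : 2 ≤ d) {τ : ℝ} (hτ : 0 < τ) (hτ1 : τ ≤ 1 / 36)
    (hT : T d τ ≤ 1) {j : ℕ} (hj : XX d τ j = 2) (k : ℕ)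
    (hlog : ∀ i < k, 1 ≤ Real.log^[i + 1] (d:ℝ)) :
    (d:ℝ) * (∏ i ∈ Finset.range k, Real.log^[i + 1] (d:ℝ)) ≤
      (64 * Real.exp 14) * (τ * Real.sqrt τ) * D d τ j := by
  have hdr : (2:ℝ) ≤ d := by exact_mod_cast hd
  have hd0 : (d:ℝ) ≠ 0 := by linarith
  have hj0 : j ≠ 0 := by
    rintro rfl
    rw [XX, v_zero, neg_div, div_self hd0] at hj
    norm_num at hj
  obtain ⟨j, rfl⟩ := Nat.exists_eq_succ_of_ne_zero hj0
  rw [Nat.succ_eq_add_one] at *
  obtain ⟨-, -, l1, l2, l3, l4⟩ := last_step hd hτ hT hj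
  obtain ⟨m, m1, m2, m3⟩ := exists_first_one hd hτ (by linarith)
  have hmj : m ≤ j := by
    by_contra hcon
    push Not at hcon
    have := m3 j hcon
    linarith
  have hDm := D_passage hd hτ hτ1 m1 m2
  have hcl := climb hd hτ (by linarith) m1 (j - m)
  rw [show m + (j - m) = j by omega] at hcl
  have hpl := prod_log hd hτ (by linarith) m1 m3 k j (Real.log d) (by omega) l2 (fun i hi => by
    have := hlog i hi
    rwa [Function.iterate_succ_apply] at this)
  have hpe : ∏ i ∈ Finset.range k, Real.log^[i + 1] (d:ℝ) =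
      ∏ i ∈ Finset.range k, Real.log^[i] (Real.log d) := by
    apply Finset.prod_congr rfl
    intro i _
    rw [Function.iterate_succ_apply]
  rw [hpe]
  set GG := ∏ i ∈ Finset.range k, Real.log^[i] (Real.log d) with hGG
  have hsplit : ∏ i ∈ Finset.Ico m (j + 1), v d τ i =
      v d τ m * ∏ i ∈ Finset.range (j - m), v d τ (m + 1 + i) := by
    rw [Finset.prod_Ico_eq_prod_range, show j + 1 - m = (j - m) + 1 by omega,
      Finset.prod_range_succ', mul_comm]
    congr 1
    apply Finset.prod_congr rfl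
    intro i _
    congr 1
    ring
  rw [hsplit] at hpl
  set R := ∏ i ∈ Finset.range (j - m), v d τ (m + 1 + i) with hR
  have hR0 : 0 ≤ R := by
    apply Finset.prod_nonneg
    intro i _
    have := m1.trans (v_mono hd hτ.le (show m ≤ m + 1 + i by omega))
    linarith
  have hGGR : GG ≤ 2 * R := hpl.trans (mul_le_mul_of_nonneg_right m2 hR0)
  have he12 : Real.exp (-12) ≤ Real.exp (-(4 * (v d τ j - v d τ m) / d)) := by
    apply Real.exp_le_exp.mpr
    apply neg_le_neg
    rw [div_le_iff₀ (by linarith)]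
    linarith
  have hD1 : D d τ m * R * Real.exp (-12) ≤ D d τ j := by
    refine le_trans ?_ hcl
    apply mul_le_mul_of_nonneg_left he12
    exact mul_nonneg (D_nonneg hd hτ.le m) hR0
  have hsq : 0 < τ * Real.sqrt τ := mul_pos hτ (Real.sqrt_pos.mpr hτ)
  have he2 := Real.exp_pos 2
  have hDm' : 1 ≤ 32 * Real.exp 2 * (τ * Real.sqrt τ) * D d τ m := by
    rw [div_le_iff₀ (by positivity)] at hDm
    linarith
  have he : Real.exp 14 = Real.exp 2 * Real.exp 12 := by rw [← Real.exp_add]; norm_num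
  have he' : Real.exp (-12) * Real.exp 12 = 1 := by rw [← Real.exp_add]; norm_num
  have hD2 : D d τ m * R ≤ D d τ j * Real.exp 12 := by
    have h1 := mul_le_mul_of_nonneg_right hD1 (Real.exp_nonneg 12)
    have h2 : D d τ m * R * Real.exp (-12) * Real.exp 12 = D d τ m * R := by
      rw [mul_assoc, he', mul_one]
    linarith
  calc (d:ℝ) * GG ≤ d * (2 * R) := mul_le_mul_of_nonneg_left hGGR (by linarith)
    _ ≤ d * (2 * R) * (32 * Real.exp 2 * (τ * Real.sqrt τ) * D d τ m) :=
        le_mul_of_one_le_right (by positivity) hDm'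
    _ = 64 * d * Real.exp 2 * (τ * Real.sqrt τ) * (D d τ m * R) := by ring
    _ ≤ 64 * d * Real.exp 2 * (τ * Real.sqrt τ) * (D d τ j * Real.exp 12) := by
        apply mul_le_mul_of_nonneg_left hD2; positivity
    _ = 64 * Real.exp 14 * (τ * Real.sqrt τ) * (d * D d τ j) := by rw [he]; ring
    _ ≤ _ := by
        apply mul_le_mul_of_nonneg_left l1; positivity

/-! ### Existence of good parameters at all scales -/

/-- if the two orbits interlace too long we get a contradiction -/
theorem exists_good {d : ℕ} (hd : 2 ≤ d) {ε : ℝ} (hε : 0 < ε) (hε1 : ε ≤ 1 / 100) {B : ℝ}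
    (hB : 1 ≤ B) :
    ∃ τ, ε / 4 ≤ τ ∧ τ ≤ ε ∧ ∃ j, v d τ j = B := by
  classical
  have hdr : (2:ℝ) ≤ d := by exact_mod_cast hd
  have hex : ∃ k, B ≤ v d ε k := by
    obtain ⟨k, hk⟩ := v_unbounded hd hε B
    exact ⟨k, hk.le⟩
  set j := Nat.find hex with hj
  have hjs : B ≤ v d ε j := Nat.find_spec hex
  have hjm : ∀ k < j, v d ε k < B := fun k hk => by
    have := Nat.find_min hex hk; linarith
  have hj0 : j ≠ 0 := by
    intro h
    rw [h, v_zero] at hjs
    linarith
  have hmain : v d (ε / 4) j ≤ B := by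
    by_contra hcon
    push Not at hcon
    set w := v d (ε / 4) with hw
    set u := v d ε with hu
    have hwy : ∀ k, 0 ≤ 1 + w k / d := y_nonneg hd (by linarith)
    have huy : ∀ k, 0 ≤ 1 + u k / d := y_nonneg hd hε.le
    have hws : ∀ k, w (k + 1) = (1 + w k / d) ^ d - 1 + ε / 4 := fun k => rfl
    have hus : ∀ k, u (k + 1) = (1 + u k / d) ^ d - 1 + ε := fun k => rfl
    -- the persistence of the order
    have hpers : ∀ i p, w (i + 1) ≤ u i → w (i + 1 + p) ≤ u (i + p) := by
      intro i p h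
      induction p with
      | zero => exact h
      | succ p ih =>
        rw [show i + 1 + (p + 1) = i + 1 + p + 1 by ring, show i + (p + 1) = i + p + 1 by ring,
          hws, hus]
        have h1 : 1 + w (i + 1 + p) / d ≤ 1 + u (i + p) / d := by
          have := div_le_div_of_nonneg_right ih (show (0:ℝ) ≤ d by linarith)
          linarith
        have h2 := pow_le_pow_left₀ (hwy _) h1 d
        linarith
    have hgt : ∀ i, i < j → u i < w (i + 1) := by
      intro i hi
      by_contra h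
      push Not at h
      have h1 := hpers i (j - 1 - i) h
      rw [show i + 1 + (j - 1 - i) = j by omega, show i + (j - 1 - i) = j - 1 by omega] at h1
      have h2 := hjm (j - 1) (by omega)
      linarith
    obtain ⟨i, hi1, hi2⟩ := exists_first_pos hd hε
    -- the next three points
    have hub : ∀ x : ℝ, 0 < x → x ≤ 1 → 0 ≤ 1 + x / d → (1 + x / d) ^ d - 1 ≤ x + x ^ 2 := by
      intro x hx0 hx1 hxd
      have h2 := E_le hd hxd
      have h3 := Real.abs_exp_sub_one_sub_id_le (x := x) (by rw [abs_of_pos hx0]; linarith)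
      have h4 := (abs_le.mp h3).2
      linarith
    have hmono : Monotone u := v_mono hd hε.le
    have hu1 : u (i + 1) ≤ 2 * ε + ε ^ 2 := by
      rw [hus]
      have := hub (u i) hi1 (by linarith) (huy i)
      have h5 : u i ^ 2 ≤ ε ^ 2 := pow_le_pow_left₀ hi1.le hi2 2
      linarith
    have hu1p : 0 < u (i + 1) := hi1.trans_le (hmono (Nat.le_succ i))
    have hu1' : u (i + 1) ≤ 3 * ε := by nlinarith
    have hu2 : u (i + 2) ≤ 4 * ε := by
      rw [show i + 2 = i + 1 + 1 by ring, hus]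
      have := hub (u (i + 1)) hu1p (by linarith) (huy _)
      have h5 : u (i + 1) ^ 2 ≤ (3 * ε) ^ 2 := pow_le_pow_left₀ hu1p.le hu1' 2
      nlinarith
    have hij : i + 2 < j := by
      by_contra h
      push Not at h
      have := hjs.trans (hmono h)
      linarith
    have hwu : ∀ k, w k ≤ u k := fun k => v_mono_param hd (by linarith) (by linarith) k
    have hEx : ∀ x : ℝ, 0 ≤ x → x ≤ 4 * ε → (1 + x / d) ^ (d - 1) ≤ 1 + 5 * ε := by
      intro x hx0 hx1
      have h2 := E'_le hd hx0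
      have h3 := Real.abs_exp_sub_one_sub_id_le (x := x) (by rw [abs_of_nonneg hx0]; linarith)
      have h4 := (abs_le.mp h3).2
      have h5 : x ^ 2 ≤ (4 * ε) ^ 2 := pow_le_pow_left₀ hx0 hx1 2
      nlinarith
    have hstep : ∀ k, u k ≤ w (k + 1) → 0 ≤ u k → w (k + 1) ≤ 4 * ε →
        w (k + 2) - u (k + 1) ≤ (1 + 5 * ε) * (w (k + 1) - u k) - 3 / 4 * ε := by
      intro k hk hk0 hk4
      rw [show k + 2 = k + 1 + 1 by ring, hws, hus]
      have h1 := E_sub_le hd (huy k) hk
      have h2 := hEx (w (k + 1)) (hk0.trans hk) hk4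
      have h3 : (1 + w (k + 1) / d) ^ (d - 1) * (w (k + 1) - u k) ≤
          (1 + 5 * ε) * (w (k + 1) - u k) :=
        mul_le_mul_of_nonneg_right h2 (by linarith)
      linarith
    have g0 := hgt i (by omega)
    have g1 := hgt (i + 1) (by omega)
    have g2 := hgt (i + 2) (by omega)
    have e0 : w (i + 1) - u i ≤ ε + ε ^ 2 := by
      have h1 := hwu (i + 1)
      rw [hus] at h1
      have h2 := hub (u i) hi1 (by linarith) (huy i)
      have h5 : u i ^ 2 ≤ ε ^ 2 := pow_le_pow_left₀ hi1.le hi2 2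
      linarith
    have w1 : w (i + 1) ≤ 4 * ε := by have := hwu (i + 1); linarith
    have w2 : w (i + 2) ≤ 4 * ε := (hwu (i + 2)).trans hu2
    have e1 := hstep i g0.le hi1.le w1
    have e2 := hstep (i + 1) g1.le hu1p.le w2
    rw [show i + 1 + 2 = i + 3 by ring, show i + 1 + 1 = i + 2 by ring] at e2
    rw [show i + 2 + 1 = i + 3 by ring] at g2
    have f1 : w (i + 2) - u (i + 1) ≤ 2 / 5 * ε := by nlinarith
    nlinarith
  -- intermediate value theorem
  have hcont : ContinuousOn (fun τ => v d τ j) (Set.Icc (ε / 4) ε) :=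
    (continuous_v d j).continuousOn
  have hivt := intermediate_value_Icc (show ε / 4 ≤ ε by linarith) hcont
  obtain ⟨τ, ⟨h1, h2⟩, h3⟩ := hivt ⟨hmain, hjs⟩
  exact ⟨τ, h1, h2, j, h3⟩

theorem T_le_one {d : ℕ} (hd : 2 ≤ d) {τ : ℝ} (hτ1 : τ ≤ 1) : T d τ ≤ 1 := by
  have hdr : (2:ℝ) ≤ d := by exact_mod_cast hd
  have hs := sr_pos d
  have hs1 := sr_lt_one hd
  rw [T, rr_eq hd]
  have h1 : sr d * τ / d ≤ sr d / d := by
    apply div_le_div_of_nonneg_right _ (by linarith)
    nlinarith
  have h2 : sr d * (1 - 1 / d) = sr d - sr d / d := by ring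
  linarith

/-- **Pairs at all small scales.** -/
theorem small_scales : ∃ C : ℝ, 1 ≤ C ∧ ∀ n : ℕ, 2 ≤ n → ∀ k : ℕ,
    (∀ i < k, 1 ≤ Real.log^[i + 1] (n:ℝ)) → ∀ ε : ℝ, 0 < ε → ε ≤ 1 →
    ∃ x ∈ multibrotSet n, x ≠ (starRingEnd ℂ) x ∧
      dist x ((starRingEnd ℂ) x) ≤
        C * (ε * Real.sqrt ε) / (n * ∏ i ∈ Finset.range k, Real.log^[i + 1] (n:ℝ)) ∧
      ∀ S : Set ℂ, S ⊆ multibrotSet n → IsPreconnected S → x ∈ S → (starRingEnd ℂ) x ∈ S →
        ε / (C * n) ≤ Metric.diam S := by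
  set A : ℝ := 64 * Real.exp 14 with hA
  have hA1 : 64 ≤ A := by
    have : (1:ℝ) ≤ Real.exp 14 := Real.one_le_exp (by norm_num)
    rw [hA]; linarith
  set κ : ℝ := 1 / (36 * A) ^ 2 with hκ
  have hκ0 : 0 < κ := by positivity
  have hκ1 : κ ≤ 1 / 100 := by
    rw [hκ]
    apply one_div_le_one_div_of_le (by norm_num)
    nlinarith
  refine ⟨max (18 * A) (16 / κ), le_max_of_le_left (by linarith), ?_⟩
  intro n hn k hlog ε hε hε1
  set C := max (18 * A) (16 / κ) with hC
  have hC1 : 18 * A ≤ C := le_max_left _ _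
  have hC2 : 16 / κ ≤ C := le_max_right _ _
  have hnr : (2:ℝ) ≤ n := by exact_mod_cast hn
  have hs := sr_pos n
  have hs2 := sr_ge_half hn
  have hB : 1 ≤ (n:ℝ) * (2 / sr n - 1) := by
    have : 2 ≤ 2 / sr n := by
      rw [le_div_iff₀ hs]
      have := sr_lt_one hn
      linarith
    nlinarith
  obtain ⟨τ, t1, t2, j, hj⟩ := exists_good hn (ε := κ * ε) (by positivity) (by nlinarith) hB
  have hτ0 : 0 < τ := lt_of_lt_of_le (by positivity) t1
  have hτκ : τ ≤ κ := t2.trans (by nlinarith)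
  have hτε : τ ≤ ε := t2.trans (by nlinarith)
  have hXX : XX n τ j = 2 := by
    rw [XX, hj]; field_simp; ring
  have hT : T n τ ≤ 1 := T_le_one hn (by linarith)
  have hD := D_lower hn hτ0 (by linarith) hT hXX k hlog
  have hj1 : 1 ≤ j := by
    rcases Nat.eq_zero_or_pos j with h | h
    · subst h
      rw [v_zero] at hj; linarith
    · exact h
  have hDp := D_pos hn hτ0.le hj1
  set GG := ∏ i ∈ Finset.range k, Real.log^[i + 1] (n:ℝ) with hGG
  have hGG1 : 1 ≤ GG := by
    have h := Finset.prod_le_prod (s := Finset.range k) (f := fun _ => (1:ℝ))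
      (g := fun i => Real.log^[i + 1] (n:ℝ)) (fun _ _ => zero_le_one) (fun i hi =>
        hlog i (Finset.mem_range.mp hi))
    rw [Finset.prod_const_one] at h
    exact h
  have hnGG : 0 < (n:ℝ) * GG := by positivity
  have hσ : Real.sqrt τ ≤ 1 / (36 * A) := by
    rw [Real.sqrt_le_left (by positivity)]
    refine hτκ.trans (le_of_eq ?_)
    rw [hκ, div_pow, one_pow]
  have hsq0 : 0 < Real.sqrt τ := Real.sqrt_pos.mpr hτ0
  have hDinv : 1 / D n τ j ≤ A * (τ * Real.sqrt τ) / (n * GG) := by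
    rw [div_le_div_iff₀ (by linarith) hnGG]
    linarith
  have hsm : 9 / D n τ j ≤ (sr n * τ / n) / 2 := by
    have h1 : 9 / D n τ j = 9 * (1 / D n τ j) := by ring
    have h2 : A * (τ * Real.sqrt τ) / (n * GG) ≤ A * (τ * Real.sqrt τ) / n := by
      apply div_le_div_of_nonneg_left (by positivity) (by linarith)
      nlinarith
    have h3 : A * (τ * Real.sqrt τ) / n ≤ A * (τ * (1 / (36 * A))) / n := by
      apply div_le_div_of_nonneg_right _ (by linarith)
      apply mul_le_mul_of_nonneg_left _ (by linarith)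
      exact mul_le_mul_of_nonneg_left hσ hτ0.le
    have h4 : A * (τ * (1 / (36 * A))) / n = τ / (36 * n) := by
      field_simp
    have h5 : 9 * (τ / (36 * n)) ≤ (sr n * τ / n) / 2 := by
      have : 9 * (τ / (36 * n)) = (1 / 2 * τ / n) / 2 := by field_simp; norm_num
      rw [this]
      apply div_le_div_of_nonneg_right _ (by norm_num)
      apply div_le_div_of_nonneg_right _ (by linarith)
      exact mul_le_mul_of_nonneg_right hs2 hτ0.le
    rw [h1]
    linarith
  obtain ⟨x, x1, x2, x3, x4⟩ := exists_pair hn hτ0 hT hXX hsm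
  refine ⟨x, x1, x2, x3.trans ?_, fun S s1 s2 s3 s4 => le_trans ?_ (x4 S s1 s2 s3 s4)⟩
  · have h1 : 18 / D n τ j = 18 * (1 / D n τ j) := by ring
    rw [h1]
    have h2 : A * (τ * Real.sqrt τ) / (n * GG) ≤ A * (ε * Real.sqrt ε) / (n * GG) := by
      apply div_le_div_of_nonneg_right _ hnGG.le
      apply mul_le_mul_of_nonneg_left _ (by linarith)
      exact mul_le_mul hτε (Real.sqrt_le_sqrt hτε) hsq0.le hε.le
    have h3 : 18 * (A * (ε * Real.sqrt ε) / (n * GG)) ≤ C * (ε * Real.sqrt ε) / (n * GG) := by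
      rw [← mul_div_assoc]
      apply div_le_div_of_nonneg_right _ hnGG.le
      have : 0 ≤ ε * Real.sqrt ε := by positivity
      nlinarith
    linarith
  · have h1 : κ * ε / 16 ≤ sr n * τ / 2 := by nlinarith
    have h2 : ε / (C * n) ≤ (κ * ε / 16) / n := by
      rw [div_div, div_le_div_iff₀ (by positivity) (by positivity)]
      have h3 : 16 ≤ κ * C := by
        rw [div_le_iff₀ hκ0] at hC2; linarith
      have h4 : 0 < ε * n := by positivity
      nlinarith
    refine h2.trans ?_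
    have h5 : (sr n * τ / n) / 2 = (sr n * τ / 2) / n := by ring
    rw [h5]
    exact div_le_div_of_nonneg_right h1 (by linarith)

end Pool.Agent.T9h9.Cusp
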