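import Mathlib
import Pool.Agent.T9h9.Cusp.Climb

set_option autoImplicit false

open Complex Set Metric N62a1eb23 Pool.Agent.H712R2

namespace Pool.Agent.T9h9.Cusp

theorem E_low {d : ℕ} (hd : 2 ≤ d) {x : ℝ} (hx : 0 ≤ x) (hxd : x ^ 2 ≤ d) :
    Real.exp (x - 1) ≤ (1 + x / d) ^ d := by
  have hdr : (2:ℝ) ≤ d := by exact_mod_cast hd
  have hd0 : (d:ℝ) ≠ 0 := by linarith
  set t := x / d with ht
  have ht0 : 0 ≤ t := by positivity
  have hxt : x = d * t := by rw [ht]; field_simp
  have ht1 : t ≤ 1 := by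
    rw [ht, div_le_one (by linarith)]
    nlinarith
  have h1 : Real.exp t ≤ 1 + t + t ^ 2 := by
    have h3 := Real.abs_exp_sub_one_sub_id_le (x := t) (by rw [abs_of_nonneg ht0]; exact ht1)
    have := (abs_le.mp h3).2
    linarith
  have h2 : 1 + t ^ 2 ≤ Real.exp (t ^ 2) := by
    have := Real.add_one_le_exp (t ^ 2); linarith
  have h3 : Real.exp (t - t ^ 2) ≤ 1 + t := by
    rw [Real.exp_sub, div_le_iff₀ (Real.exp_pos _)]
    calc Real.exp t ≤ 1 + t + t ^ 2 := h1
      _ ≤ (1 + t) * (1 + t ^ 2) := by nlinarith [pow_nonneg ht0 3]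
      _ ≤ _ := mul_le_mul_of_nonneg_left h2 (by linarith)
  have h4 := pow_le_pow_left₀ (Real.exp_nonneg _) h3 d
  rw [← Real.exp_nat_mul] at h4
  refine le_trans (Real.exp_le_exp.mpr ?_) h4
  have h5 : (d:ℝ) * (t - t ^ 2) = x - x ^ 2 / d := by
    rw [hxt]; field_simp
  rw [h5]
  have h6 : x ^ 2 / d ≤ 1 := by rw [div_le_one (by linarith)]; exact hxd
  linarith

theorem prod_half (p : ℕ) : (1 / 4 : ℝ) ≤ ∏ l ∈ Finset.range p, (1 - (1 / 2 : ℝ) ^ (l + 1)) := by
  have key : ∀ p : ℕ, (1 / 4 : ℝ) + (1 / 2) ^ (p + 2) ≤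
      ∏ l ∈ Finset.range (p + 1), (1 - (1 / 2 : ℝ) ^ (l + 1)) := by
    intro p
    induction p with
    | zero => norm_num
    | succ p ih =>
      rw [Finset.prod_range_succ]
      have h1 : (0:ℝ) < (1 / 2) ^ p := by positivity
      have h2 : (1 / 2 : ℝ) ^ p ≤ 1 := pow_le_one₀ (by norm_num) (by norm_num)
      have h3 : 0 ≤ 1 - (1 / 2 : ℝ) ^ (p + 1 + 1) := by
        rw [pow_succ, pow_succ]; nlinarith
      refine le_trans ?_ (mul_le_mul_of_nonneg_right ih h3)
      simp only [pow_succ]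
      nlinarith
  rcases Nat.eq_zero_or_pos p with h | h
  · subst h; norm_num
  · obtain ⟨q, rfl⟩ := Nat.exists_eq_succ_of_ne_zero h.ne'
    have := key q
    have h1 : (0:ℝ) < (1 / 2) ^ (q + 2) := by positivity
    rw [Nat.succ_eq_add_one]
    linarith

theorem v_one {d : ℕ} (hd : 2 ≤ d) (τ : ℝ) : v d τ 1 = τ - 1 := by
  have hdr : (2:ℝ) ≤ d := by exact_mod_cast hd
  rw [v_succ, v_zero, neg_div, div_self (by linarith)]
  have : (1 + -1 : ℝ) ^ d = 0 := by
    rw [show (1 + -1 : ℝ) = 0 by norm_num]; exact zero_pow (by omega)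
  rw [this]; ring

/-- existence of the parameter whose orbit hits `2` after `k + 2` steps -/
theorem exists_hit {d : ℕ} (hd : 2 ≤ d) (k : ℕ) :
    ∃ τ, 0 < τ ∧ T d τ ≤ 1 ∧ XX d τ (k + 2) = 2 := by
  have hdr : (2:ℝ) ≤ d := by exact_mod_cast hd
  have hs := sr_pos d
  have hs1 := sr_lt_one hd
  have hrr1 : rr d < 1 := by
    rw [rr_eq hd]
    have : (0:ℝ) < 1 / d := by positivity
    nlinarith
  set τ1 := (1 - rr d) * d / sr d with hτ1
  have hτ1p : 0 < τ1 := by
    rw [hτ1]; apply div_pos _ hs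
    apply mul_pos (by linarith) (by linarith)
  have hT1 : T d τ1 = 1 := by
    rw [T, hτ1]; field_simp; ring
  have hX1 : ∀ i, 2 ≤ XX d τ1 (i + 2) := by
    intro i
    have h0 : XX d τ1 0 = 0 := by
      rw [XX, v_zero, neg_div, div_self (by linarith)]; ring
    have h1 : XX d τ1 1 = 1 := by
      rw [XX_succ hd, h0, hT1, zero_pow (by omega)]; ring
    have h2 : XX d τ1 2 = 2 := by
      rw [XX_succ hd, h1, hT1]; norm_num
    have h3 : XX d τ1 2 ≤ XX d τ1 (i + 2) := by
      rw [XX, XX]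
      apply mul_le_mul_of_nonneg_left _ hs.le
      have := div_le_div_of_nonneg_right (v_mono hd hτ1p.le (show 2 ≤ i + 2 by omega))
        (show (0:ℝ) ≤ d by linarith)
      linarith
    linarith
  have hv0 : ∀ i, v d 0 i ≤ 0 := by
    intro i
    induction i with
    | zero => rw [v_zero]; linarith
    | succ i ih =>
      rw [v_succ]
      have h3 : 1 + v d 0 i / d ≤ 1 := by
        have := div_nonpos_of_nonpos_of_nonneg ih (show (0:ℝ) ≤ d by linarith)
        linarith
      have h4 := pow_le_one₀ (n := d) (y_nonneg hd le_rfl i) h3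
      linarith
  have hX0 : XX d 0 (k + 2) < 2 := by
    rw [XX]
    have h1 : 1 + v d 0 (k + 2) / d ≤ 1 := by
      have := div_nonpos_of_nonpos_of_nonneg (hv0 (k + 2)) (show (0:ℝ) ≤ d by linarith)
      linarith
    nlinarith [y_nonneg hd (le_refl (0:ℝ)) (k + 2)]
  have hcont : Continuous (fun τ => XX d τ (k + 2)) := by
    unfold XX
    have := continuous_v d (k + 2)
    fun_prop
  have hivt := intermediate_value_Icc hτ1p.le hcont.continuousOn
  obtain ⟨τ, ⟨h1, h2⟩, h3⟩ := hivt ⟨hX0.le, hX1 k⟩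
  have h3' : XX d τ (k + 2) = 2 := h3
  refine ⟨τ, ?_, ?_, h3'⟩
  · rcases eq_or_lt_of_le h1 with h | h
    · rw [← h] at h3'; linarith
    · exact h
  · rw [← hT1]
    unfold T
    have : sr d * τ / d ≤ sr d * τ1 / d := by
      apply div_le_div_of_nonneg_right _ (by linarith)
      exact mul_le_mul_of_nonneg_left h2 hs.le
    linarith

/-- the tower `e_i` -/
noncomputable def tow (a : ℝ) (i : ℕ) : ℝ := Real.exp^[i] a

theorem tow_zero (a : ℝ) : tow a 0 = a := rfl
theorem tow_succ (a : ℝ) (i : ℕ) : tow a (i + 1) = Real.exp (tow a i) :=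
  Function.iterate_succ_apply' _ _ _

theorem tow_ge {a : ℝ} (ha : 8 ≤ a) (i : ℕ) : 8 ≤ tow a i ∧ 2 * tow a i ≤ tow a (i + 1) := by
  induction i with
  | zero =>
    rw [tow_succ, tow_zero]
    refine ⟨ha, ?_⟩
    have := Real.quadratic_le_exp_of_nonneg (show 0 ≤ a by linarith)
    nlinarith
  | succ i ih =>
    have h1 : 8 ≤ tow a (i + 1) := by linarith [ih.1, ih.2]
    refine ⟨h1, ?_⟩
    rw [tow_succ a (i + 1)]
    have := Real.quadratic_le_exp_of_nonneg (show 0 ≤ tow a (i + 1) by linarith)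
    nlinarith

theorem tow_mono {a : ℝ} (ha : 8 ≤ a) : Monotone (tow a) := by
  apply monotone_nat_of_le_succ
  intro i
  have := tow_ge ha i
  linarith

theorem tow_pow {a : ℝ} (ha : 8 ≤ a) (p : ℕ) : 2 ^ p * tow a 1 ≤ tow a (p + 1) := by
  induction p with
  | zero => simp
  | succ p ih =>
    have := (tow_ge ha (p + 1)).2
    rw [pow_succ]
    linarith

section
variable {d k : ℕ} {a τ : ℝ}

/-- lower bound for the parameter -/
theorem tau_ge (hd : 2 ≤ d) (ha : 8 ≤ a) (hk : tow a k = Real.log d) (hτ : 0 < τ)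
    (hT : T d τ ≤ 1) (hX : XX d τ (k + 2) = 2) : a ≤ τ := by
  by_contra hcon
  push Not at hcon
  obtain ⟨-, -, -, l2, -, -⟩ := last_step hd hτ hT hX
  have key : ∀ i, v d τ (i + 1) ≤ tow a i - 1 := by
    intro i
    induction i with
    | zero => rw [v_one hd, tow_zero]; linarith
    | succ i ih =>
      have h1 : v d τ (i + 1 + 1) ≤ Real.exp (v d τ (i + 1)) - 1 + τ := by
        rw [v_succ]
        have := E_le hd (y_nonneg hd hτ.le (i + 1))
        linarith
      have h2 : Real.exp (v d τ (i + 1)) ≤ Real.exp (tow a i - 1) := Real.exp_le_exp.mpr ih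
      have h3 : Real.exp (tow a i - 1) = tow a (i + 1) * Real.exp (-1) := by
        rw [tow_succ, ← Real.exp_add]; rfl
      have h4 : Real.exp (-1) ≤ 1 / 2 := by
        rw [Real.exp_neg, inv_le_comm₀ (Real.exp_pos _) (by norm_num)]
        have := Real.add_one_le_exp (1:ℝ)
        norm_num at this ⊢
        linarith
      have h5 : 2 * a ≤ tow a (i + 1) := by
        have h6 := tow_mono ha (show 1 ≤ i + 1 by omega)
        have h7 := (tow_ge ha 0).2
        rw [tow_zero] at h7
        exact h7.trans h6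
      have h8 : tow a (i + 1) * Real.exp (-1) ≤ tow a (i + 1) * (1 / 2) :=
        mul_le_mul_of_nonneg_left h4 (by linarith)
      linarith
  have := key k
  rw [hk] at this
  linarith

/-- upper bound for the parameter -/
theorem tau_le (hd : 2 ≤ d) (ha : 8 ≤ a) (hk : tow a k = Real.log d) (hk1 : 1 ≤ k) (hτ : 0 < τ)
    (hT : T d τ ≤ 1) (hX : XX d τ (k + 2) = 2) : τ ≤ tow a 1 / 2 := by
  by_contra hcon
  push Not at hcon
  have hdr : (2:ℝ) ≤ d := by exact_mod_cast hd
  have hd0 : (d:ℝ) ≠ 0 := by linarith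
  obtain ⟨-, l1, -, -, -, -⟩ := last_step hd hτ hT hX
  have hdexp : Real.exp (tow a k) = d := by rw [hk, Real.exp_log (by linarith)]
  have key : ∀ i, i ≤ k → 2 * tow a i + 1 ≤ v d τ (i + 1) := by
    intro i
    induction i with
    | zero =>
      intro _
      rw [v_one hd, tow_zero]
      have h1 : tow a 1 = Real.exp a := tow_succ a 0
      rw [h1] at hcon
      have := Real.quadratic_le_exp_of_nonneg (show 0 ≤ a by linarith)
      nlinarith
    | succ i ih =>
      intro hi
      have ih' := ih (by omega)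
      have hti := (tow_ge ha i).1
      have hti1 := (tow_ge ha (i + 1)).1
      rw [v_succ]
      have h1 : (2 * tow a i) ^ 2 ≤ d := by
        have h2 : tow a (i + 1) ≤ tow a k := tow_mono ha hi
        have h3 : tow a i ≤ tow a (i + 1) := tow_mono ha (Nat.le_succ i)
        have h4 : (2 * tow a i) ^ 2 ≤ Real.exp (tow a k) := by
          have h5 := Real.quadratic_le_exp_of_nonneg (show 0 ≤ tow a i by linarith)
          rw [← tow_succ] at h5
          have h6 := Real.quadratic_le_exp_of_nonneg (show 0 ≤ tow a k by linarith)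
          have h7 : tow a i ^ 2 / 2 ≤ tow a k := by linarith
          nlinarith
        rw [hdexp] at h4
        exact h4
      have h2 := E_low hd (x := 2 * tow a i) (by linarith) h1
      have h3 : (1 + 2 * tow a i / d) ^ d ≤ (1 + v d τ (i + 1) / d) ^ d := by
        apply pow_le_pow_left₀ (by positivity)
        have := div_le_div_of_nonneg_right (show 2 * tow a i ≤ v d τ (i + 1) by linarith)
          (show (0:ℝ) ≤ d by linarith)
        linarith
      have h4 : Real.exp (2 * tow a i - 1) = tow a (i + 1) ^ 2 * Real.exp (-1) := by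
        rw [tow_succ, ← Real.exp_nat_mul, ← Real.exp_add]
        congr 1
      have h5 : (1:ℝ) / 3 ≤ Real.exp (-1) := by
        rw [Real.exp_neg, one_div]
        apply inv_anti₀ (Real.exp_pos _)
        have := Real.exp_one_lt_d9
        linarith
      have h6 : tow a (i + 1) ^ 2 * (1 / 3) ≤ tow a (i + 1) ^ 2 * Real.exp (-1) :=
        mul_le_mul_of_nonneg_left h5 (sq_nonneg _)
      have hτ1 : 1 ≤ τ := by
        have := (tow_ge ha 1).1
        linarith
      nlinarith
  have hlast := key k le_rfl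
  -- the upper bound
  set ℓ := Real.log d with hℓ
  have hℓ8 : 16 ≤ ℓ := by
    rw [← hk]
    have h1 := (tow_ge ha 0).2
    rw [tow_zero] at h1
    have h2 := tow_mono ha hk1
    linarith
  rw [hk] at hlast
  have hdℓ : Real.exp ℓ = d := by rw [← hk]; exact hdexp
  have hq := Real.quadratic_le_exp_of_nonneg (show 0 ≤ ℓ by linarith)
  rw [hdℓ] at hq
  have hd8 : 8 * ℓ ≤ d := by nlinarith
  have hs := sr_pos d
  have hX0 : 0 ≤ XX d τ (k + 1) := mul_nonneg hs.le (y_nonneg hd hτ.le _)
  have hXe : XX d τ (k + 1) ≤ Real.exp (Real.log 2 / d) := by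
    by_contra h
    push Not at h
    have h1 := pow_lt_pow_left₀ h (Real.exp_nonneg _) (show d ≠ 0 by omega)
    rw [← Real.exp_nat_mul] at h1
    have h2 : (d:ℝ) * (Real.log 2 / d) = Real.log 2 := by field_simp
    rw [h2, Real.exp_log (by norm_num)] at h1
    linarith
  have hv : v d τ (k + 1) = d * (XX d τ (k + 1) * (1 / sr d) - 1) := by
    rw [XX]; field_simp; ring
  set x := Real.log 2 / d + ℓ / (d - 1) with hx
  have hup : XX d τ (k + 1) * (1 / sr d) ≤ Real.exp x := by
    rw [inv_sr, hx, Real.exp_add]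
    exact mul_le_mul_of_nonneg_right hXe (Real.exp_nonneg _)
  have hlog2 : Real.log 2 ≤ 7 / 10 := by
    have := Real.log_two_lt_d9; linarith
  have hlog20 : 0 < Real.log 2 := Real.log_pos (by norm_num)
  have hx1 : d * x ≤ 7 / 10 + 3 / 2 * ℓ := by
    rw [hx, mul_add]
    have h1 : (d:ℝ) * (Real.log 2 / d) = Real.log 2 := by field_simp
    have h2 : (d:ℝ) * (ℓ / (d - 1)) ≤ 3 / 2 * ℓ := by
      rw [mul_div_assoc', div_le_iff₀ (by linarith)]
      nlinarith
    rw [h1]; linarith
  have hx0 : 0 ≤ x := by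
    rw [hx]
    have : 0 < ℓ / ((d:ℝ) - 1) := div_pos (by linarith) (by linarith)
    have : 0 < Real.log 2 / (d:ℝ) := div_pos hlog20 (by linarith)
    linarith
  have hx2 : d * x ≤ 2 * ℓ := by linarith
  have hx3 : x ≤ 1 := by
    have : d * x ≤ d * 1 := by linarith
    exact le_of_mul_le_mul_left this (by linarith)
  have h3 := Real.abs_exp_sub_one_sub_id_le (x := x) (by rw [abs_of_nonneg hx0]; exact hx3)
  have h4 := (abs_le.mp h3).2
  have hx4 : d * x ^ 2 ≤ ℓ / 2 := by
    have h5 : (d * x) ^ 2 ≤ (2 * ℓ) ^ 2 := pow_le_pow_left₀ (by positivity) hx2 2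
    have h6 : d * (d * x ^ 2) ≤ d * (ℓ / 2) := by nlinarith
    exact le_of_mul_le_mul_left h6 (by linarith)
  have h7 : v d τ (k + 1) ≤ d * (x + x ^ 2) := by
    rw [hv]
    apply mul_le_mul_of_nonneg_left _ (by linarith)
    linarith
  nlinarith

/-- lower bounds for the orbit -/
theorem v_ge_tow (hd : 2 ≤ d) (ha : 8 ≤ a) (hk : tow a k = Real.log d) (hτ : 0 < τ)
    (hT : T d τ ≤ 1) (hX : XX d τ (k + 2) = 2) (p : ℕ) :
    ∀ l, p + l = k → tow a l - 1 ≤ v d τ (l + 1) := by
  obtain ⟨-, -, -, l2, -, -⟩ := last_step hd hτ hT hX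
  induction p with
  | zero =>
    intro l hl
    rw [zero_add] at hl
    subst hl
    rw [hk]; linarith
  | succ p ih =>
    intro l hl
    have h1 := ih (l + 1) (by omega)
    have h2 := tau_le hd ha hk (by omega) hτ hT hX
    have h3 : tow a 1 ≤ tow a (l + 1) := tow_mono ha (by omega)
    have h4 := (tow_ge ha (l + 1)).1
    have h5 : tow a (l + 1) / 2 ≤ Real.exp (v d τ (l + 1)) := by
      have h6 := E_le hd (y_nonneg hd hτ.le (l + 1))
      have h7 : v d τ (l + 1 + 1) = (1 + v d τ (l + 1) / d) ^ d - 1 + τ := v_succ _ _ _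
      linarith
    have h8 : Real.log (tow a (l + 1) / 2) ≤ v d τ (l + 1) := by
      rw [Real.log_le_iff_le_exp (by linarith)]; exact h5
    rw [Real.log_div (by linarith) (by norm_num), tow_succ, Real.log_exp] at h8
    have := Real.log_two_lt_d9
    linarith

/-- lower bound for the derivative on the staircase -/
theorem D_stair (hd : 2 ≤ d) (ha : 8 ≤ a) (hk : tow a k = Real.log d) (hτ : 0 < τ)
    (hT : T d τ ≤ 1) (hX : XX d τ (k + 2) = 2) :
    d * ∏ l ∈ Finset.range k, tow a (l + 1) ≤ 4 * Real.exp 12 * D d τ (k + 2) := by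
  have hdr : (2:ℝ) ≤ d := by exact_mod_cast hd
  obtain ⟨-, -, l1, -, -, l4⟩ := last_step hd hτ hT hX
  have haτ := tau_ge hd ha hk hτ hT hX
  have hv1 : 1 ≤ v d τ 1 := by rw [v_one hd]; linarith
  have key : ∀ p, p ≤ k → (∏ l ∈ Finset.range p, (1 - (1 / 2 : ℝ) ^ (l + 1))) *
      (∏ l ∈ Finset.range p, tow a (l + 1)) * Real.exp (-(4 * (v d τ (p + 1) - v d τ 1) / d)) ≤
      D d τ (p + 1) := by
    intro p
    induction p with
    | zero =>
      intro _
      have := D_pos hd hτ.le (k := 0 + 1) (by omega)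
      simpa using this
    | succ p ih =>
      intro hp
      have ih' := ih (by omega)
      have hvp : 1 ≤ v d τ (p + 1) := hv1.trans (v_mono hd hτ.le (by omega))
      have h1 := v_ge_tow hd ha hk hτ hT hX (k - (p + 1)) (p + 1) (by omega)
      have h2 := tau_le hd ha hk (by omega) hτ hT hX
      have h3 := tow_pow ha p
      have h4 := (tow_ge ha (p + 1)).1
      have hbb : tow a (p + 1) * (1 - (1 / 2 : ℝ) ^ (p + 1)) ≤ tow a (p + 1) - τ := by
        have h5 : (1 / 2 : ℝ) ^ (p + 1) * tow a (p + 1) ≥ tow a 1 / 2 := by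
          have h6 : (1 / 2 : ℝ) ^ (p + 1) * (2 ^ p * tow a 1) ≤
              (1 / 2 : ℝ) ^ (p + 1) * tow a (p + 1) :=
            mul_le_mul_of_nonneg_left h3 (by positivity)
          have h7 : (1 / 2 : ℝ) ^ (p + 1) * (2 ^ p * tow a 1) = tow a 1 / 2 := by
            have h8 : (1 / 2 : ℝ) ^ p * 2 ^ p = 1 := by
              rw [← mul_pow]; norm_num
            calc (1 / 2 : ℝ) ^ (p + 1) * (2 ^ p * tow a 1)
                = ((1 / 2 : ℝ) ^ p * 2 ^ p) * (tow a 1 / 2) := by ring
              _ = _ := by rw [h8, one_mul]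
          linarith
        nlinarith
      have hhalf : (0:ℝ) ≤ 1 - (1 / 2 : ℝ) ^ (p + 1) := by
        have : (1 / 2 : ℝ) ^ (p + 1) ≤ 1 := pow_le_one₀ (by norm_num) (by norm_num)
        linarith
      have hb0 : 0 ≤ tow a (p + 1) * (1 - (1 / 2 : ℝ) ^ (p + 1)) :=
        mul_nonneg (by linarith) hhalf
      have h9 := climb_step hd hτ hvp hb0 (by linarith)
      refine le_trans ?_ h9
      rw [Finset.prod_range_succ, Finset.prod_range_succ]
      have h10 : Real.exp (-(4 * (v d τ (p + 1 + 1) - v d τ 1) / d)) =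
          Real.exp (-(4 * (v d τ (p + 1) - v d τ 1) / d)) *
          Real.exp (-(4 * (v d τ (p + 1 + 1) - v d τ (p + 1)) / d)) := by
        rw [← Real.exp_add]; congr 1; ring
      rw [h10]
      have h11 := mul_le_mul_of_nonneg_right ih' hb0
      have h12 := mul_le_mul_of_nonneg_right h11
        (Real.exp_nonneg (-(4 * (v d τ (p + 1 + 1) - v d τ (p + 1)) / d)))
      refine le_trans (le_of_eq ?_) h12
      ring
  have hkk := key k le_rfl
  have hG0 : 0 ≤ ∏ l ∈ Finset.range k, tow a (l + 1) := by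
    apply Finset.prod_nonneg
    intro i _
    have := (tow_ge ha (i + 1)).1
    linarith
  set G := ∏ l ∈ Finset.range k, tow a (l + 1) with hG
  have he12 : Real.exp (-12) ≤ Real.exp (-(4 * (v d τ (k + 1) - v d τ 1) / d)) := by
    apply Real.exp_le_exp.mpr
    apply neg_le_neg
    rw [div_le_iff₀ (by linarith)]
    linarith
  have he' : Real.exp (-12) * Real.exp 12 = 1 := by rw [← Real.exp_add]; norm_num
  have h1 : (1 / 4) * G * Real.exp (-12) ≤ D d τ (k + 1) := by
    refine le_trans ?_ hkk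
    apply mul_le_mul _ he12 (Real.exp_nonneg _)
    · apply mul_nonneg _ hG0
      have := prod_half k
      linarith
    · exact mul_le_mul_of_nonneg_right (prod_half k) hG0
  have h2 : G ≤ 4 * Real.exp 12 * D d τ (k + 1) := by
    have h3 := mul_le_mul_of_nonneg_right h1 (show 0 ≤ 4 * Real.exp 12 by positivity)
    have h4 : (1 / 4) * G * Real.exp (-12) * (4 * Real.exp 12) =
        G * (Real.exp (-12) * Real.exp 12) := by ring
    rw [h4, he'] at h3
    linarith
  have he := Real.exp_pos 12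
  calc (d:ℝ) * G ≤ d * (4 * Real.exp 12 * D d τ (k + 1)) :=
        mul_le_mul_of_nonneg_left h2 (by linarith)
    _ = 4 * Real.exp 12 * (d * D d τ (k + 1)) := by ring
    _ ≤ _ := mul_le_mul_of_nonneg_left l1 (by positivity)

end

/-- iterated logarithms and the tower -/
theorem tow_log {n : ℕ} {k : ℕ} (hlog : ∀ i ≤ k, 1 ≤ Real.log^[i + 1] (n:ℝ)) (i : ℕ)
    (hi : i ≤ k) : tow (Real.log^[k + 1] (n:ℝ)) i = Real.log^[k + 1 - i] (n:ℝ) := by
  induction i with
  | zero => rfl
  | succ i ih =>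
    rw [tow_succ, ih (by omega)]
    have h1 : k + 1 - i = (k - i) + 1 := by omega
    have h2 : k + 1 - (i + 1) = (k - i - 1) + 1 := by omega
    rw [h1, Function.iterate_succ_apply', h2]
    have h3 : k - i = (k - i - 1) + 1 := by omega
    have h4 := hlog (k - i - 1) (by omega)
    rw [← h3] at h4 ⊢
    exact Real.exp_log (by linarith)

/-- **Pairs at the large scales.** -/
theorem large_scales : ∃ C : ℝ, 1 ≤ C ∧ ∀ n : ℕ, 2 ≤ n → ∀ k : ℕ,
    (∀ i ≤ k, 1 ≤ Real.log^[i + 1] (n:ℝ)) →
    ∃ x ∈ multibrotSet n, x ≠ (starRingEnd ℂ) x ∧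
      dist x ((starRingEnd ℂ) x) ≤
        C / (n * ∏ i ∈ Finset.range k, Real.log^[i + 1] (n:ℝ)) ∧
      ∀ S : Set ℂ, S ⊆ multibrotSet n → IsPreconnected S → x ∈ S → (starRingEnd ℂ) x ∈ S →
        Real.log^[k + 1] (n:ℝ) / (C * n) ≤ Metric.diam S := by
  obtain ⟨C0, hC0, hsmall⟩ := small_scales
  set B : ℝ := 144 * Real.exp 12 with hB
  have he12 : (1:ℝ) ≤ Real.exp 12 := Real.one_le_exp (by norm_num)
  have hB8 : 144 ≤ B := by rw [hB]; linarith
  refine ⟨C0 * B, by nlinarith, ?_⟩
  intro n hn k hlog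
  have hnr : (2:ℝ) ≤ n := by exact_mod_cast hn
  set G := ∏ i ∈ Finset.range k, Real.log^[i + 1] (n:ℝ) with hG
  have hG1 : 1 ≤ G := by
    have h := Finset.prod_le_prod (s := Finset.range k) (f := fun _ => (1:ℝ))
      (g := fun i => Real.log^[i + 1] (n:ℝ)) (fun _ _ => zero_le_one) (fun i hi =>
        hlog i (Finset.mem_range.mp hi).le)
    rw [Finset.prod_const_one] at h
    exact h
  have hnG : 0 < (n:ℝ) * G := by positivity
  have hCB : C0 ≤ C0 * B := by nlinarith
  rcases lt_or_ge (Real.log^[k + 1] (n:ℝ)) B with hlt | hge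
  · obtain ⟨x, x1, x2, x3, x4⟩ := hsmall n hn k (fun i hi => hlog i hi.le) 1 one_pos le_rfl
    refine ⟨x, x1, x2, x3.trans ?_, fun S s1 s2 s3 s4 => le_trans ?_ (x4 S s1 s2 s3 s4)⟩
    · rw [Real.sqrt_one, mul_one, mul_one]
      exact div_le_div_of_nonneg_right hCB hnG.le
    · rw [div_le_div_iff₀ (by positivity) (by positivity)]
      have h1 : 0 < C0 * n := by positivity
      nlinarith
  · set a := Real.log^[k + 1] (n:ℝ) with ha
    have ha8 : 8 ≤ a := by linarith
    have hk : tow a k = Real.log n := by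
      rw [ha, tow_log hlog k le_rfl]
      have : k + 1 - k = 1 := by omega
      rw [this]; rfl
    have hGt : ∏ l ∈ Finset.range k, tow a (l + 1) = G := by
      rw [hG, ← Finset.prod_range_reflect]
      apply Finset.prod_congr rfl
      intro i hi
      have hi' := Finset.mem_range.mp hi
      rw [ha, tow_log hlog (k - 1 - i + 1) (by omega)]
      congr 2
      omega
    obtain ⟨τ, hτ, hT, hX⟩ := exists_hit hn k
    have haτ := tau_ge hn ha8 hk hτ hT hX
    have hD := D_stair hn ha8 hk hτ hT hX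
    rw [hGt] at hD
    have hDp := D_pos hn hτ.le (k := k + 2) (by omega)
    have hs2 := sr_ge_half hn
    have hDinv : 1 / D n τ (k + 2) ≤ 4 * Real.exp 12 / (n * G) := by
      rw [div_le_div_iff₀ (by linarith) hnG]
      linarith
    have hsm : 9 / D n τ (k + 2) ≤ (sr n * τ / n) / 2 := by
      have h1 : 9 / D n τ (k + 2) = 9 * (1 / D n τ (k + 2)) := by ring
      have h2 : 4 * Real.exp 12 / (n * G) ≤ 4 * Real.exp 12 / n := by
        apply div_le_div_of_nonneg_left (by positivity) (by linarith)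
        nlinarith
      have h3 : 9 * (4 * Real.exp 12 / n) = (B / 4) / n := by rw [hB]; ring
      have h4 : (B / 4) / n ≤ (sr n * τ / n) / 2 := by
        have : (sr n * τ / n) / 2 = (sr n * τ / 2) / n := by ring
        rw [this]
        apply div_le_div_of_nonneg_right _ (by linarith)
        nlinarith
      rw [h1]; linarith
    obtain ⟨x, x1, x2, x3, x4⟩ := exists_pair hn hτ hT hX hsm
    refine ⟨x, x1, x2, x3.trans ?_, fun S s1 s2 s3 s4 => le_trans ?_ (x4 S s1 s2 s3 s4)⟩
    · have h1 : 18 / D n τ (k + 2) = 18 * (1 / D n τ (k + 2)) := by ring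
      have h2 : 18 * (4 * Real.exp 12 / (n * G)) = (B / 2) / (n * G) := by rw [hB]; ring
      have h3 : (B / 2) / (n * G) ≤ C0 * B / (n * G) := by
        apply div_le_div_of_nonneg_right _ hnG.le
        nlinarith
      rw [h1]; linarith
    · have h1 : (sr n * τ / n) / 2 = (sr n * τ / 2) / n := by ring
      rw [h1, div_le_div_iff₀ (by positivity) (by linarith)]
      have h2 : a / 4 ≤ sr n * τ / 2 := by nlinarith
      have h3 : a ≤ sr n * τ / 2 * (C0 * B) := by
        have h4 : 4 ≤ C0 * B := by nlinarith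
        nlinarith
      have h5 : 0 < (n:ℝ) := by linarith
      nlinarith

end Pool.Agent.T9h9.Cusp
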