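import Mathlib
import Pool.Agent.T9h9.Cusp.Stair

set_option autoImplicit false

open Complex Set Metric N62a1eb23 Pool.Agent.H712R2

namespace Pool.Agent.T9h9.Cusp

theorem pow_diff {p : ℂ} {a e : ℝ} (ha : 0 ≤ a) (h : ‖p - a‖ ≤ e) (d : ℕ) :
    ‖p ^ d - (a : ℂ) ^ d‖ ≤ (a + e) ^ d - a ^ d := by
  have he : 0 ≤ e := (norm_nonneg _).trans h
  induction d with
  | zero => simp
  | succ d ih =>
    have h1 : p ^ (d + 1) - (a : ℂ) ^ (d + 1) = p * (p ^ d - (a : ℂ) ^ d) + (p - a) * (a : ℂ) ^ d := by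
      ring
    rw [h1]
    have hp : ‖p‖ ≤ a + e := by
      have := norm_add_le (a : ℂ) (p - a)
      rw [add_sub_cancel, Complex.norm_real, Real.norm_eq_abs, abs_of_nonneg ha] at this
      linarith
    have had : ‖(a : ℂ) ^ d‖ = a ^ d := by
      rw [norm_pow, Complex.norm_real, Real.norm_eq_abs, abs_of_nonneg ha]
    refine (norm_add_le _ _).trans ?_
    rw [norm_mul, norm_mul, had]
    have h2 : ‖p‖ * ‖p ^ d - (a : ℂ) ^ d‖ ≤ (a + e) * ((a + e) ^ d - a ^ d) :=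
      mul_le_mul hp ih (norm_nonneg _) (by linarith)
    have h3 : ‖p - a‖ * a ^ d ≤ e * a ^ d := mul_le_mul_of_nonneg_right h (by positivity)
    have h4 : (a + e) ^ (d + 1) - a ^ (d + 1) = (a + e) * ((a + e) ^ d - a ^ d) + e * a ^ d := by
      ring
    linarith

theorem XX_nonneg {d : ℕ} (hd : 2 ≤ d) {τ : ℝ} (hτ : 0 ≤ τ) (k : ℕ) : 0 ≤ XX d τ k :=
  mul_nonneg (sr_pos d).le (y_nonneg hd hτ k)

/-- comparison of a complex orbit with two real ones -/
theorem compare {d : ℕ} (hd : 2 ≤ d) {τ τ' : ℝ} (hτ : 0 ≤ τ) {c : ℂ}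
    (hc : ‖c - (T d τ : ℂ)‖ ≤ T d τ' - T d τ) (k : ℕ) :
    ‖P d k c - (XX d τ k : ℂ)‖ ≤ XX d τ' k - XX d τ k := by
  have hdr : (2:ℝ) ≤ d := by exact_mod_cast hd
  induction k with
  | zero =>
    have h0 : ∀ t, XX d t 0 = 0 := by
      intro t
      rw [XX, v_zero, neg_div, div_self (by linarith)]; simp
    rw [P_zero, h0, h0]; simp
  | succ k ih =>
    have h1 := pow_diff (XX_nonneg hd hτ k) ih d
    rw [P_succ, XX_succ hd, XX_succ hd]
    have h2 : P d k c ^ d + c - ((XX d τ k ^ d + T d τ : ℝ) : ℂ) =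
        (P d k c ^ d - (XX d τ k : ℂ) ^ d) + (c - (T d τ : ℂ)) := by
      push_cast; ring
    rw [h2]
    refine (norm_add_le _ _).trans ?_
    rw [add_sub_cancel] at h1
    linarith

theorem v_diff {d : ℕ} (hd : 2 ≤ d) {τ τ' : ℝ} (hτ : 0 ≤ τ) (hττ' : τ ≤ τ') (k : ℕ) :
    v d τ' k - v d τ k ≤ (τ' - τ) * D d τ' k := by
  induction k with
  | zero => simp [v_zero, D]
  | succ k ih =>
    rw [v_succ, v_succ, D_succ]
    have h1 := E_sub_le hd (y_nonneg hd hτ k) (v_mono_param hd hτ hττ' k)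
    have h2 : 0 ≤ (1 + v d τ' k / d) ^ (d - 1) := pow_nonneg (y_nonneg hd (hτ.trans hττ') k) _
    have h3 := mul_le_mul_of_nonneg_left ih h2
    have h4 : (τ' - τ) * ((1 + v d τ' k / d) ^ (d - 1) * D d τ' k + 1) =
        (1 + v d τ' k / d) ^ (d - 1) * ((τ' - τ) * D d τ' k) + (τ' - τ) := by ring
    rw [h4]
    linarith

/-- a threshold -/
noncomputable def X0 (d : ℕ) : ℝ := 64 + 4 * Real.log d

theorem log_pos' {d : ℕ} (hd : 2 ≤ d) : 0 < Real.log d :=
  Real.log_pos (by exact_mod_cast (by omega : 1 < d))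

theorem X0_ge {d : ℕ} (hd : 2 ≤ d) : 64 ≤ X0 d := by
  have := log_pos' hd
  unfold X0; linarith

theorem E_exp {d : ℕ} (hd : 2 ≤ d) {x : ℝ} (hx : 0 ≤ x) :
    Real.exp (x - x ^ 2 / (d + x)) ≤ (1 + x / d) ^ d := by
  have hdr : (2:ℝ) ≤ d := by exact_mod_cast hd
  have hd0 : (d:ℝ) ≠ 0 := by linarith
  have h0 : 0 < 1 + x / d := by positivity
  have h1 : 1 - (1 + x / d)⁻¹ ≤ Real.log (1 + x / d) := Real.one_sub_inv_le_log_of_pos h0
  have h2 : x - x ^ 2 / (d + x) = d * (1 - (1 + x / d)⁻¹) := by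
    field_simp
    ring
  rw [h2, ← Real.exp_log h0, ← Real.exp_nat_mul, Real.exp_log h0]
  exact Real.exp_le_exp.mpr (mul_le_mul_of_nonneg_left h1 (by linarith))

theorem E_X0 {d : ℕ} (hd : 2 ≤ d) {x : ℝ} (hx : X0 d ≤ x) : 16 * d ≤ (1 + x / d) ^ d := by
  have hdr : (2:ℝ) ≤ d := by exact_mod_cast hd
  have hX := X0_ge hd
  have hlog := log_pos' hd
  by_cases h64 : d ≤ 64
  · have h64r : (d:ℝ) ≤ 64 := by exact_mod_cast h64
    have h1 := E_quad hd (show 0 ≤ x by linarith)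
    nlinarith
  · have h64r : (64:ℝ) ≤ d := by exact_mod_cast (by omega : 64 ≤ d)
    have h1 : (1 + X0 d / d) ^ d ≤ (1 + x / d) ^ d := by
      apply pow_le_pow_left₀ (by positivity)
      have := div_le_div_of_nonneg_right hx (show (0:ℝ) ≤ d by linarith)
      linarith
    refine le_trans ?_ h1
    refine le_trans ?_ (E_exp hd (by linarith))
    have hl64 : Real.log d ≤ d / 64 + 5 := by
      have h2 : Real.log (d / 64) ≤ d / 64 - 1 := Real.log_le_sub_one_of_pos (by positivity)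
      rw [Real.log_div (by linarith) (by norm_num)] at h2
      have h3 : Real.log 64 ≤ 5 := by
        rw [show (64:ℝ) = 2 ^ 6 by norm_num, Real.log_pow]
        have := Real.log_two_lt_d9
        push_cast; linarith
      linarith
    have h2 : X0 d ≤ 2 * d := by unfold X0; linarith
    have h3 : X0 d / 3 ≤ X0 d - X0 d ^ 2 / (d + X0 d) := by
      have h4 : X0 d - X0 d ^ 2 / (d + X0 d) = X0 d * d / (d + X0 d) := by
        have : (d:ℝ) + X0 d ≠ 0 := by positivity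
        field_simp
        ring
      rw [h4, le_div_iff₀ (by positivity)]
      nlinarith
    have h4 : Real.log (16 * d) ≤ X0 d / 3 := by
      rw [Real.log_mul (by norm_num) (by linarith)]
      have h5 : Real.log 16 ≤ 3 := by
        rw [show (16:ℝ) = 2 ^ 4 by norm_num, Real.log_pow]
        have := Real.log_two_lt_d9
        push_cast; linarith
      unfold X0; linarith
    calc (16:ℝ) * d = Real.exp (Real.log (16 * d)) := by rw [Real.exp_log (by positivity)]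
      _ ≤ _ := Real.exp_le_exp.mpr (h4.trans h3)

/-- **escape criterion** -/
theorem notMem_of {d : ℕ} (hd : 2 ≤ d) {τ τ' : ℝ} (hτ : 0 ≤ τ) {l : ℕ} {c : ℂ}
    (hc : ‖c - (T d τ : ℂ)‖ ≤ T d τ' - T d τ) (hv : 2 * X0 d ≤ v d τ l)
    (hdiff : v d τ' l - v d τ l ≤ v d τ l / 2) : c ∉ multibrotSet d := by
  intro hcM
  rw [mem_multibrot_iff hd] at hcM
  have hdr : (2:ℝ) ≤ d := by exact_mod_cast hd
  have hX := X0_ge hd
  have hs := sr_pos d
  have hs2 := sr_ge_half hd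
  have h1 := compare hd hτ hc l
  have h2 : sr d * (1 + (v d τ l / 2) / d) ≤ ‖P d l c‖ := by
    have h3 := norm_sub_norm_le (XX d τ l : ℂ) (XX d τ l - P d l c)
    rw [sub_sub_cancel, norm_sub_rev, Complex.norm_real, Real.norm_eq_abs,
      abs_of_nonneg (XX_nonneg hd hτ l)] at h3
    have h4 : XX d τ l - (XX d τ' l - XX d τ l) =
        sr d * (1 + v d τ l / d) - sr d / d * (v d τ' l - v d τ l) := by
      simp only [XX]; ring
    have h5 : sr d / d * (v d τ' l - v d τ l) ≤ sr d / d * (v d τ l / 2) :=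
      mul_le_mul_of_nonneg_left hdiff (by positivity)
    have h6 : sr d * (1 + v d τ l / d) - sr d / d * (v d τ l / 2) =
        sr d * (1 + (v d τ l / 2) / d) := by ring
    linarith
  have h3 : 16 * (d:ℝ) ≤ (1 + (v d τ l / 2) / d) ^ d := E_X0 hd (by linarith)
  have h4 : (sr d * (1 + (v d τ l / 2) / d)) ^ d ≤ ‖P d l c‖ ^ d :=
    pow_le_pow_left₀ (by
      apply mul_nonneg hs.le
      have : 0 ≤ v d τ l := by linarith
      positivity) h2 d
  rw [mul_pow, sr_pow' hd] at h4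
  have h5 : sr d / d * (16 * d) ≤ sr d / d * (1 + (v d τ l / 2) / d) ^ d :=
    mul_le_mul_of_nonneg_left h3 (by positivity)
  have h6 : sr d / d * (16 * d) = 16 * sr d := by field_simp
  have h7 := hcM (l + 1)
  rw [P_succ] at h7
  have h8 : ‖P d l c ^ d‖ ≤ ‖P d l c ^ d + c‖ + ‖c‖ := by
    have := norm_sub_le (P d l c ^ d + c) c
    rwa [add_sub_cancel_right] at this
  have h9 := hcM 1
  rw [P_one hd] at h9
  rw [norm_pow] at h8
  linarith

/-- escape from a bound for the derivative -/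
theorem notMem_of_D {d : ℕ} (hd : 2 ≤ d) {τ τ' : ℝ} (hτ : 0 ≤ τ) (hττ' : τ ≤ τ') {l : ℕ} {W : ℝ}
    (hv : 4 * X0 d ≤ v d τ' l) (hD : D d τ' l ≤ (v d τ' l + 2) * W)
    (hW : (τ' - τ) * W ≤ 1 / 8) {c : ℂ} (hc : ‖c - (T d τ : ℂ)‖ ≤ T d τ' - T d τ) :
    c ∉ multibrotSet d := by
  have hX := X0_ge hd
  have h1 := v_diff hd hτ hττ' l
  have h2 : (τ' - τ) * D d τ' l ≤ (v d τ' l + 2) * ((τ' - τ) * W) := by
    have := mul_le_mul_of_nonneg_left hD (show 0 ≤ τ' - τ by linarith)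
    linarith
  have h3 : (v d τ' l + 2) * ((τ' - τ) * W) ≤ (v d τ' l + 2) * (1 / 8) :=
    mul_le_mul_of_nonneg_left hW (by linarith)
  apply notMem_of hd hτ hc (l := l)
  · linarith
  · linarith

end Pool.Agent.T9h9.Cusp
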