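import Mathlib
import Pool.Agent.T9h9.Cusp.Width1

set_option autoImplicit false

open Complex Set Metric N62a1eb23 Pool.Agent.H712R2

namespace Pool.Agent.T9h9.Cusp

theorem E_ge_quad {d : ℕ} (hd : 2 ≤ d) {x : ℝ} (hx : -1 ≤ x) :
    1 + x + x ^ 2 / 4 ≤ (1 + x / d) ^ d := by
  have hdr : (2:ℝ) ≤ d := by exact_mod_cast hd
  have h1 : -1 ≤ x / d := by
    rw [le_div_iff₀ (by linarith)]
    linarith
  have h0 : 0 ≤ 1 + x / d := by linarith
  have h2 := one_add_mul_self_le_rpow_one_add h1 (p := (d:ℝ) / 2) (by linarith)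
  have h3 : (d:ℝ) / 2 * (x / d) = x / 2 := by field_simp
  rw [h3] at h2
  have h4 : ((1 + x / d) ^ ((d:ℝ) / 2)) ^ 2 = (1 + x / d) ^ d := by
    rw [← Real.rpow_natCast ((1 + x / d) ^ ((d:ℝ) / 2)) 2, ← Real.rpow_mul h0,
      ← Real.rpow_natCast (1 + x / d) d]
    congr 1
    push_cast
    ring
  rw [← h4]
  have h5 : (1 + x / 2) ^ 2 ≤ ((1 + x / d) ^ ((d:ℝ) / 2)) ^ 2 :=
    pow_le_pow_left₀ (by linarith) h2 2
  nlinarith

theorem v_ge_neg_one {d : ℕ} (hd : 2 ≤ d) {τ : ℝ} (hτ : 0 ≤ τ) {k : ℕ} (hk : 1 ≤ k) :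
    -1 ≤ v d τ k := by
  have h := v_mono hd hτ hk
  rw [v_one hd] at h
  linarith

theorem step_quad {d : ℕ} (hd : 2 ≤ d) {τ : ℝ} (hτ : 0 ≤ τ) {k : ℕ} (hk : 1 ≤ k) :
    τ + v d τ k ^ 2 / 4 ≤ v d τ (k + 1) - v d τ k := by
  have := E_ge_quad hd (v_ge_neg_one hd hτ hk)
  rw [v_succ]; linarith

/-- potential function estimate -/
theorem pot {σ a b Δ : ℝ} (hσ : 0 < σ) (hΔ : b = a + Δ) (h1 : σ ^ 2 + a ^ 2 / 4 ≤ Δ) (h2 : Δ ≤ 4) :
    σ / 34 ≤ b / (σ + |b|) - a / (σ + |a|) := by
  have hΔ0 : 0 < Δ := by nlinarith [sq_nonneg a, sq_nonneg σ, mul_pos hσ hσ]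
  set M := max |a| |b| with hM
  have haM : |a| ≤ M := le_max_left _ _
  have hbM : |b| ≤ M := le_max_right _ _
  have ha0 := abs_nonneg a
  have hb0 := abs_nonneg b
  have hM0 : 0 ≤ M := ha0.trans haM
  have hM2 : M ^ 2 ≤ 16 * Δ := by
    rcases le_total |a| |b| with h | h
    · rw [hM, max_eq_right h, sq_abs]
      subst hΔ
      nlinarith [sq_nonneg (a - Δ)]
    · rw [hM, max_eq_left h, sq_abs]
      nlinarith
  have h3 : (σ + M) ^ 2 ≤ 34 * Δ := by nlinarith [sq_nonneg (σ - M)]
  have hσM : 0 < σ + M := by linarith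
  have key : σ * Δ / (σ + M) ^ 2 ≤ b / (σ + |b|) - a / (σ + |a|) := by
    have hpa : 0 < σ + |a| := by linarith
    have hpb : 0 < σ + |b| := by linarith
    rw [div_sub_div _ _ hpb.ne' hpa.ne']
    rcases le_total 0 a with ha | ha
    · have hb : 0 ≤ b := by linarith
      rw [abs_of_nonneg ha, abs_of_nonneg hb] at *
      have e : b * (σ + a) - (σ + b) * a = σ * Δ := by rw [hΔ]; ring
      rw [e]
      apply div_le_div_of_nonneg_left (by positivity) (by positivity)
      nlinarith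
    · rcases le_total 0 b with hb | hb
      · rw [abs_of_nonpos ha, abs_of_nonneg hb] at *
        have e : σ * Δ ≤ b * (σ + -a) - (σ + b) * a := by rw [hΔ]; nlinarith
        calc σ * Δ / (σ + M) ^ 2 ≤ (b * (σ + -a) - (σ + b) * a) / (σ + M) ^ 2 :=
              div_le_div_of_nonneg_right e (by positivity)
          _ ≤ _ := by
              apply div_le_div_of_nonneg_left _ (by positivity)
              · nlinarith
              · have : 0 < σ * Δ := by positivity
                linarith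
      · rw [abs_of_nonpos ha, abs_of_nonpos hb] at *
        have e : b * (σ + -a) - (σ + -b) * a = σ * Δ := by rw [hΔ]; ring
        rw [e]
        apply div_le_div_of_nonneg_left (by positivity) (by positivity)
        nlinarith
  refine le_trans ?_ key
  rw [div_le_div_iff₀ (by norm_num) (by positivity)]
  nlinarith

/-- bound for the number of steps in the passage -/
theorem count {d : ℕ} (hd : 2 ≤ d) {τ : ℝ} (hτ : 0 < τ) (hτ3 : τ ≤ 3) {m : ℕ}
    (hm : ∀ k < m, v d τ k < 1) : (m : ℝ) * √τ ≤ 1 * √τ + 68 := by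
  set σ := √τ with hσ
  have hσ0 : 0 < σ := Real.sqrt_pos.mpr hτ
  have hσ2 : σ ^ 2 = τ := Real.sq_sqrt hτ.le
  have key : ∀ k, k + 1 ≤ m → (k:ℝ) * (σ / 34) - 1 ≤ v d τ (k + 1) / (σ + |v d τ (k + 1)|) := by
    intro k
    induction k with
    | zero =>
      intro _
      have h1 : |v d τ 1 / (σ + |v d τ 1|)| ≤ 1 := by
        rw [abs_div, div_le_one (by have := abs_nonneg (v d τ 1); positivity)]
        rw [abs_of_pos (by have := abs_nonneg (v d τ 1); positivity : 0 < σ + |v d τ 1|)]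
        linarith
      have := (abs_le.mp h1).1
      push_cast; linarith
    | succ k ih =>
      intro hk
      have h1 := ih (by omega)
      have h2 := step_quad hd hτ.le (show 1 ≤ k + 1 by omega)
      have hv1 := hm (k + 1) (by omega)
      have hv0 := v_ge_neg_one hd hτ.le (show 1 ≤ k + 1 by omega)
      have h3 : v d τ (k + 1 + 1) - v d τ (k + 1) ≤ 4 := by
        have h4 := E_le hd (y_nonneg hd hτ.le (k + 1))
        rw [v_succ]
        have hyp : Real.exp (v d τ (k + 1)) - v d τ (k + 1) ≤ 2 := by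
          have hc := convexOn_exp.2 (mem_univ (-1:ℝ)) (mem_univ (1:ℝ))
            (show 0 ≤ (1 - v d τ (k + 1)) / 2 by linarith)
            (show 0 ≤ (1 + v d τ (k + 1)) / 2 by linarith) (by ring)
          simp only [smul_eq_mul] at hc
          have e : (1 - v d τ (k + 1)) / 2 * -1 + (1 + v d τ (k + 1)) / 2 * 1 =
              v d τ (k + 1) := by ring
          rw [e] at hc
          have e1 := Real.exp_one_lt_d9
          have e2 : Real.exp (-1) ≤ 1 / 2 := by
            rw [Real.exp_neg, inv_le_comm₀ (Real.exp_pos 1) (by norm_num)]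
            have := Real.add_one_le_exp (1:ℝ)
            norm_num; linarith
          nlinarith
        linarith
      have h5 := pot hσ0 (a := v d τ (k + 1)) (b := v d τ (k + 1 + 1))
        (Δ := v d τ (k + 1 + 1) - v d τ (k + 1)) (by ring) (by rw [hσ2]; exact h2) h3
      push_cast
      linarith
  rcases Nat.eq_zero_or_pos m with h | h
  · subst h; push_cast; nlinarith
  · obtain ⟨k, rfl⟩ : ∃ k, m = k + 1 := ⟨m - 1, by omega⟩
    have h1 := key k le_rfl
    have h2 : v d τ (k + 1) / (σ + |v d τ (k + 1)|) ≤ 1 := by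
      rw [div_le_one (by have := abs_nonneg (v d τ (k + 1)); positivity)]
      have := le_abs_self (v d τ (k + 1))
      linarith
    push_cast
    nlinarith

/-- `D_k ≤ (v_(k+1) - v_k) k / τ` -/
theorem D_le_count {d : ℕ} (hd : 2 ≤ d) {τ : ℝ} (hτ : 0 < τ) (k : ℕ) :
    D d τ k ≤ (v d τ (k + 1) - v d τ k) * (k / τ) := by
  induction k with
  | zero => simp [D]
  | succ k ih =>
    have h1 := v_step hd hτ.le k
    have h1' := v_step hd hτ.le (k + 1)
    have hy := y_nonneg hd hτ.le k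
    have h2 : (1 + v d τ k / d) ^ (d - 1) * (v d τ (k + 1) - v d τ k) ≤
        v d τ (k + 2) - v d τ (k + 1) := by
      have h3 : v d τ (k + 2) - v d τ (k + 1) =
          (1 + v d τ (k + 1) / d) ^ d - (1 + v d τ k / d) ^ d := by
        rw [v_succ d τ (k + 1), v_succ d τ k]; ring
      rw [h3]
      have hdr : (2:ℝ) ≤ d := by exact_mod_cast hd
      have hd0 : (d:ℝ) ≠ 0 := by linarith
      -- convexity
      set a := 1 + v d τ k / d with ha
      set b := 1 + v d τ (k + 1) / d with hb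
      have hab : a ≤ b := by
        have := div_le_div_of_nonneg_right (show v d τ k ≤ v d τ (k + 1) by linarith)
          (show (0:ℝ) ≤ d by linarith)
        rw [ha, hb]; linarith
      have hdiff : v d τ (k + 1) - v d τ k = d * (b - a) := by
        rw [ha, hb]; field_simp; ring
      rw [hdiff]
      have key : ∀ n : ℕ, (n:ℝ) * (b - a) * a ^ (n - 1) ≤ b ^ n - a ^ n := by
        intro n
        induction n with
        | zero => simp
        | succ n ihn =>
          have e1 : b ^ (n + 1) - a ^ (n + 1) = b * (b ^ n - a ^ n) + (b - a) * a ^ n := by ring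
          rw [e1, Nat.add_sub_cancel]
          have e2 : a * ((n:ℝ) * (b - a) * a ^ (n - 1)) ≤ b * (b ^ n - a ^ n) := by
            apply mul_le_mul hab ihn _ (hy.trans hab)
            have : 0 ≤ b - a := by linarith
            positivity
          have e3 : a * ((n:ℝ) * (b - a) * a ^ (n - 1)) = n * (b - a) * a ^ n := by
            rcases Nat.eq_zero_or_pos n with h | h
            · subst h; simp
            · obtain ⟨q, rfl⟩ : ∃ q, n = q + 1 := ⟨n - 1, by omega⟩
              rw [Nat.add_sub_cancel]; ring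
          push_cast
          linarith
      have := key d
      linarith
    rw [D_succ]
    have h3 : (1 + v d τ k / d) ^ (d - 1) * D d τ k ≤
        (1 + v d τ k / d) ^ (d - 1) * ((v d τ (k + 1) - v d τ k) * (k / τ)) :=
      mul_le_mul_of_nonneg_left ih (pow_nonneg hy _)
    have h4 : (1 + v d τ k / d) ^ (d - 1) * (v d τ (k + 1) - v d τ k) * (k / τ) ≤
        (v d τ (k + 2) - v d τ (k + 1)) * (k / τ) :=
      mul_le_mul_of_nonneg_right h2 (by positivity)
    have h5 : 1 ≤ (v d τ (k + 2) - v d τ (k + 1)) * (1 / τ) := by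
      rw [mul_one_div, le_div_iff₀ hτ]
      have : v d τ (k + 2) = v d τ (k + 1 + 1) := rfl
      linarith
    have e : (v d τ (k + 1 + 1) - v d τ (k + 1)) * (((k + 1 : ℕ) : ℝ) / τ) =
        (v d τ (k + 2) - v d τ (k + 1)) * (k / τ) + (v d τ (k + 2) - v d τ (k + 1)) * (1 / τ) := by
      push_cast; ring
    rw [e]
    linarith

/-- **the derivative at the end of the passage** -/
theorem D_pass {d : ℕ} (hd : 2 ≤ d) {τ : ℝ} (hτ : 0 < τ) (hτ3 : τ ≤ 3) :
    ∃ m, 1 ≤ m ∧ 1 ≤ v d τ m ∧ v d τ m ≤ 5 ∧ D d τ m ≤ 11000 / (τ * √τ) := by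
  classical
  have hdr : (2:ℝ) ≤ d := by exact_mod_cast hd
  have hex : ∃ k, 1 ≤ v d τ k := by
    obtain ⟨k, hk⟩ := v_unbounded hd hτ 1
    exact ⟨k, hk.le⟩
  set m := Nat.find hex with hm
  have h1 : 1 ≤ v d τ m := Nat.find_spec hex
  have h2 : ∀ k < m, v d τ k < 1 := fun k hk => by
    have := Nat.find_min hex hk; linarith
  have hm0 : m ≠ 0 := by
    intro h
    rw [h, v_zero] at h1; linarith
  obtain ⟨k, hk⟩ : ∃ k, m = k + 1 := ⟨m - 1, by omega⟩
  set σ := √τ with hσ
  have hσ0 : 0 < σ := Real.sqrt_pos.mpr hτ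
  have hσ2 : σ ^ 2 = τ := Real.sq_sqrt hτ.le
  have hσ3 : σ ≤ 2 := by
    rw [hσ]
    apply Real.sqrt_le_iff.mpr
    constructor <;> linarith
  have hvk := h2 k (by omega)
  have hmE : v d τ m ≤ 5 := by
    rw [hk, v_succ]
    have h3 := E_le hd (y_nonneg hd hτ.le k)
    have h4 : Real.exp (v d τ k) ≤ Real.exp 1 := Real.exp_le_exp.mpr hvk.le
    have := Real.exp_one_lt_d9
    linarith
  refine ⟨m, by omega, h1, hmE, ?_⟩
  have hcnt := count hd hτ hτ3 h2
  rcases Nat.eq_zero_or_pos k with hk0 | hk0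
  · have : D d τ m = 1 := by rw [hk, hk0, D_succ]; simp [D]
    rw [this, le_div_iff₀ (by positivity)]
    nlinarith
  · have hvk1 := v_ge_neg_one hd hτ.le hk0
    have hDk := D_le_count hd hτ k
    have hΔ : v d τ (k + 1) - v d τ k ≤ 6 := by rw [← hk]; linarith
    have hkm : (k:ℝ) * σ ≤ 68 := by
      have : (m:ℝ) = k + 1 := by rw [hk]; push_cast; rfl
      rw [this] at hcnt
      linarith
    have hDk2 : D d τ k ≤ 6 * (68 / (τ * σ)) := by
      refine hDk.trans ?_
      apply mul_le_mul hΔ _ (by positivity) (by norm_num)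
      rw [div_le_div_iff₀ hτ (by positivity)]
      nlinarith
    have hEp : (1 + v d τ k / d) ^ (d - 1) ≤ 3 := by
      have h5 : (1 + v d τ k / d) ^ (d - 1) ≤ (1 + 1 / d) ^ (d - 1) := by
        apply pow_le_pow_left₀ (y_nonneg hd hτ.le k)
        have := div_le_div_of_nonneg_right hvk.le (show (0:ℝ) ≤ d by linarith)
        linarith
      have h6 := E'_le hd (x := 1) (by norm_num)
      have := Real.exp_one_lt_d9
      linarith
    rw [hk, D_succ]
    have hDk0 := D_nonneg hd hτ.le k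
    have h7 : (1 + v d τ k / d) ^ (d - 1) * D d τ k ≤ 3 * (6 * (68 / (τ * σ))) :=
      mul_le_mul hEp hDk2 hDk0 (by norm_num)
    have h8 : 1 ≤ 6 / (τ * σ) := by
      rw [le_div_iff₀ (by positivity)]
      nlinarith
    have h9 : 3 * (6 * (68 / (τ * σ))) + 6 / (τ * σ) ≤ 11000 / (τ * σ) := by
      have e : 3 * (6 * (68 / (τ * σ))) + 6 / (τ * σ) = 1230 / (τ * σ) := by ring
      rw [e]
      exact div_le_div_of_nonneg_right (by norm_num) (by positivity)
    linarith

/-- climbing, upper bound -/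
theorem D_climb {d : ℕ} (hd : 2 ≤ d) {τ : ℝ} (hτ : 0 < τ) {m : ℕ} (hm : 1 ≤ m)
    (h1 : 0 ≤ v d τ m) (p : ℕ) :
    D d τ (m + p) ≤ D d τ m * ∏ i ∈ Finset.Ico (m + 1) (m + p + 1), (v d τ i + 2) := by
  have hdr : (2:ℝ) ≤ d := by exact_mod_cast hd
  induction p with
  | zero => simp
  | succ p ih =>
    have hv0 : 0 ≤ v d τ (m + p) := h1.trans (v_mono hd hτ.le (by omega))
    have hv1 : 0 ≤ v d τ (m + p + 1) := h1.trans (v_mono hd hτ.le (by omega))
    have hD := D_pos hd hτ.le (show 1 ≤ m + p by omega)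
    rw [← add_assoc, Finset.prod_Ico_succ_top (by omega), D_succ]
    have h2 : (1 + v d τ (m + p) / d) ^ (d - 1) ≤ (1 + v d τ (m + p) / d) ^ d := by
      apply pow_le_pow_right₀ _ (by omega)
      have : 0 ≤ v d τ (m + p) / d := by positivity
      linarith
    have h3 : (1 + v d τ (m + p) / d) ^ d = v d τ (m + p + 1) + 1 - τ := by
      rw [v_succ]; ring
    have h4 : (1 + v d τ (m + p) / d) ^ (d - 1) * D d τ (m + p) ≤
        (v d τ (m + p + 1) + 1) * D d τ (m + p) :=
      mul_le_mul_of_nonneg_right (by linarith) (by linarith)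
    have h5 : (v d τ (m + p + 1) + 2) * D d τ (m + p) ≤
        (v d τ (m + p + 1) + 2) *
          (D d τ m * ∏ i ∈ Finset.Ico (m + 1) (m + p + 1), (v d τ i + 2)) :=
      mul_le_mul_of_nonneg_left ih (by linarith)
    linarith

end Pool.Agent.T9h9.Cusp
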