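import Mathlib
import Pool.Agent.T9h9.Cusp.Width2

set_option autoImplicit false

open Complex Set Metric N62a1eb23 Pool.Agent.H712R2

namespace Pool.Agent.T9h9.Cusp

theorem X0_sq {d : ℕ} (hd : 2 ≤ d) : X0 d ^ 2 ≤ 4224 * d := by
  have hdr : (2:ℝ) ≤ d := by exact_mod_cast hd
  have hlog := log_pos' hd
  have h1 : Real.log d ≤ 2 * √d := by
    have h2 : Real.log (√d) ≤ √d - 1 := Real.log_le_sub_one_of_pos (Real.sqrt_pos.mpr (by linarith))
    rw [Real.log_sqrt (by linarith)] at h2
    linarith
  have h2 : Real.log d ^ 2 ≤ 4 * d := by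
    have h3 := pow_le_pow_left₀ hlog.le h1 2
    rw [mul_pow, Real.sq_sqrt (by linarith)] at h3
    linarith
  unfold X0
  nlinarith [sq_nonneg (64 - 4 * Real.log d)]

/-- one step backwards -/
theorem back {d : ℕ} (hd : 2 ≤ d) {τ : ℝ} (hτ : 0 ≤ τ) {i : ℕ} (h0 : 0 ≤ v d τ i)
    (h1 : v d τ i ≤ 4 * X0 d) : v d τ i ≤ Real.log (v d τ (i + 1) + 1) + 67584 := by
  have hdr : (2:ℝ) ≤ d := by exact_mod_cast hd
  have h2 := E_exp hd h0
  have h3 : v d τ i ^ 2 / (d + v d τ i) ≤ 67584 := by
    rw [div_le_iff₀ (by linarith)]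
    have h4 := X0_sq hd
    have h5 : v d τ i ^ 2 ≤ (4 * X0 d) ^ 2 := pow_le_pow_left₀ h0 h1 2
    nlinarith
  have h4 : Real.exp (v d τ i - 67584) ≤ v d τ (i + 1) + 1 := by
    have h5 : Real.exp (v d τ i - 67584) ≤ (1 + v d τ i / d) ^ d :=
      (Real.exp_le_exp.mpr (by linarith)).trans h2
    rw [v_succ]; linarith
  have h5 := Real.log_le_log (Real.exp_pos _) h4
  rw [Real.log_exp] at h5
  linarith

theorem log_ineq {K : ℝ} (hK1 : 1 ≤ K) (hK : Real.log (1 + K) + 67584 + 2 ≤ K) {y x x' : ℝ}
    (hy : 1 ≤ y) (hx' : x' + 2 ≤ y + K) (h0 : 0 ≤ x') (hx : x ≤ Real.log (x' + 1) + 67584) :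
    x + 2 ≤ Real.log y + K := by
  have h1 : Real.log (x' + 1) ≤ Real.log (y * (1 + K)) := by
    apply Real.log_le_log (by linarith)
    nlinarith
  rw [Real.log_mul (by linarith) (by linarith)] at h1
  linarith

theorem iter_log_pos {K : ℝ} (hK1 : 1 ≤ K) {q : ℕ} {y : ℝ}
    (h : ∀ i < q, 1 ≤ Real.log^[i] y) : 1 ≤ ∏ i ∈ Finset.range q, (Real.log^[i] y + K) := by
  have := Finset.prod_le_prod (s := Finset.range q) (f := fun _ => (1:ℝ))
    (g := fun i => Real.log^[i] y + K) (fun _ _ => zero_le_one) (fun i hi => by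
      have := h i (Finset.mem_range.mp hi)
      linarith)
  rwa [Finset.prod_const_one] at this

theorem prod_up {d : ℕ} (hd : 2 ≤ d) {τ : ℝ} (hτ : 0 < τ) {K : ℝ} (hK1 : 1 ≤ K)
    (hK : Real.log (1 + K) + 67584 + 2 ≤ K) {m : ℕ} (hm1 : 1 ≤ m) (hm : 1 ≤ v d τ m) (q : ℕ) :
    ∀ (r : ℕ) (y : ℝ), m ≤ r → v d τ r ≤ 4 * X0 d → (∀ i < q, 1 ≤ Real.log^[i] y) →
      Real.log^[q] y < 1 → v d τ r + 2 ≤ y + K →
      ∏ i ∈ Finset.Ico (m + 1) (r + 1), (v d τ i + 2) ≤
        (K + 1) ^ (⌈4 * K⌉₊) * ∏ i ∈ Finset.range q, (Real.log^[i] y + K) := by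
  induction q with
  | zero =>
    intro r y hmr hr4 _ hy hry
    simp only [Function.iterate_zero, id] at hy
    rw [Finset.range_zero, Finset.prod_empty, mul_one]
    have h1 : v d τ r ≤ K - 1 := by linarith
    have h2 : ∀ p, v d τ m + p / 4 ≤ v d τ (m + p) := by
      intro p
      induction p with
      | zero => simp
      | succ p ih =>
        have h3 := step_quad hd hτ.le (show 1 ≤ m + p by omega)
        have h4 : 1 ≤ v d τ (m + p) := hm.trans (v_mono hd hτ.le (by omega))
        have h5 : v d τ (m + p + 1) = v d τ (m + (p + 1)) := rfl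
        push_cast
        nlinarith
    have h3 := h2 (r - m)
    rw [show m + (r - m) = r by omega] at h3
    have h4 : r - m ≤ ⌈4 * K⌉₊ := by
      have h5 : ((r - m : ℕ) : ℝ) ≤ 4 * K := by linarith
      have h6 := h5.trans (Nat.le_ceil _)
      exact_mod_cast h6
    have h5 : ∏ i ∈ Finset.Ico (m + 1) (r + 1), (v d τ i + 2) ≤
        ∏ _i ∈ Finset.Ico (m + 1) (r + 1), (K + 1) := by
      apply Finset.prod_le_prod
      · intro i hi
        rw [Finset.mem_Ico] at hi
        have : v d τ m ≤ v d τ i := v_mono hd hτ.le (by omega)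
        linarith
      · intro i hi
        rw [Finset.mem_Ico] at hi
        have : v d τ i ≤ v d τ r := v_mono hd hτ.le (by omega)
        linarith
    refine h5.trans ?_
    rw [Finset.prod_const, Nat.card_Ico]
    apply pow_le_pow_right₀ (by linarith)
    omega
  | succ q ih =>
    intro r y hmr hr4 hy1 hy2 hry
    have hy : 1 ≤ y := hy1 0 (by omega)
    have hP : 1 ≤ (K + 1) ^ (⌈4 * K⌉₊) := one_le_pow₀ (by linarith)
    rcases hmr.eq_or_lt with h | h
    · rw [← h, Finset.Ico_self, Finset.prod_empty]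
      have := iter_log_pos hK1 hy1
      nlinarith
    · obtain ⟨r', rfl⟩ : ∃ r', r = r' + 1 := ⟨r - 1, by omega⟩
      have hv' : 1 ≤ v d τ r' := hm.trans (v_mono hd hτ.le (by omega))
      have hle : v d τ r' ≤ v d τ (r' + 1) := v_mono hd hτ.le (by omega)
      have hb := back hd hτ.le (by linarith) (hle.trans hr4)
      have h1 := log_ineq hK1 hK hy hry (by linarith) hb
      have h2 := ih r' (Real.log y) (by omega) (hle.trans hr4) (by
        intro i hi
        have := hy1 (i + 1) (by omega)
        rwa [Function.iterate_succ_apply] at this) (by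
        rwa [Function.iterate_succ_apply] at hy2) h1
      rw [Finset.prod_Ico_succ_top (by omega), Finset.prod_range_succ']
      simp only [Function.iterate_zero, id, Function.iterate_succ_apply]
      have h3 : (∏ i ∈ Finset.Ico (m + 1) (r' + 1), (v d τ i + 2)) * (v d τ (r' + 1) + 2) ≤
          ((K + 1) ^ (⌈4 * K⌉₊) * ∏ i ∈ Finset.range q, (Real.log^[i] (Real.log y) + K)) *
            (y + K) := by
        apply mul_le_mul h2 hry (by linarith)
        have := iter_log_pos hK1 (q := q) (y := Real.log y) (by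
          intro i hi
          have := hy1 (i + 1) (by omega)
          rwa [Function.iterate_succ_apply] at this)
        positivity
      refine h3.trans (le_of_eq ?_)
      ring

theorem prod_up' {d : ℕ} (hd : 2 ≤ d) {τ : ℝ} (hτ : 0 < τ) {K : ℝ} (hK1 : 1 ≤ K)
    (hK : Real.log (1 + K) + 67584 + 2 ≤ K) (hv1 : 0 ≤ v d τ 1) (q : ℕ) :
    ∀ (r : ℕ) (y : ℝ), 1 ≤ r → v d τ r ≤ 4 * X0 d → (∀ i < q, 1 ≤ Real.log^[i] y) →
      v d τ r + 2 ≤ y + K → r ≤ q + 1 →
      ∏ i ∈ Finset.Ico 2 (r + 1), (v d τ i + 2) ≤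
        ∏ i ∈ Finset.range q, (Real.log^[i] y + K) := by
  induction q with
  | zero =>
    intro r y h1 _ _ _ h2
    obtain rfl : r = 1 := by omega
    simp
  | succ q ih =>
    intro r y hr1 hr4 hy1 hry hrq
    have hy : 1 ≤ y := hy1 0 (by omega)
    rcases hr1.eq_or_lt with h | h
    · rw [← h]
      have := iter_log_pos hK1 hy1
      simpa using this
    · obtain ⟨r', rfl⟩ : ∃ r', r = r' + 1 := ⟨r - 1, by omega⟩
      have hv' : 0 ≤ v d τ r' := hv1.trans (v_mono hd hτ.le (by omega))
      have hle : v d τ r' ≤ v d τ (r' + 1) := v_mono hd hτ.le (by omega)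
      have hb := back hd hτ.le hv' (hle.trans hr4)
      have h1 := log_ineq hK1 hK hy hry (by linarith) hb
      have h2 := ih r' (Real.log y) (by omega) (hle.trans hr4) (by
        intro i hi
        have := hy1 (i + 1) (by omega)
        rwa [Function.iterate_succ_apply] at this) h1 (by omega)
      rw [Finset.prod_Ico_succ_top (by omega), Finset.prod_range_succ']
      simp only [Function.iterate_zero, id, Function.iterate_succ_apply]
      apply mul_le_mul h2 hry (by linarith)
      have := iter_log_pos hK1 (q := q) (y := Real.log y) (by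
        intro i hi
        have := hy1 (i + 1) (by omega)
        rwa [Function.iterate_succ_apply] at this)
      linarith

theorem two_mul_le_exp (x : ℝ) (hx : 0 ≤ x) : 2 * x ≤ Real.exp x := by
  have := Real.quadratic_le_exp_of_nonneg hx
  nlinarith [sq_nonneg (x - 1)]

theorem two_pow_le (q : ℕ) : ∀ y : ℝ, (∀ i < q + 1, 1 ≤ Real.log^[i] y) → 2 ^ q ≤ y := by
  induction q with
  | zero => intro y h; simpa using h 0 (by omega)
  | succ q ih =>
    intro y h
    have hy : 1 ≤ y := h 0 (by omega)
    have h1 := ih (Real.log y) (fun i hi => by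
      have := h (i + 1) (by omega)
      rwa [Function.iterate_succ_apply] at this)
    have h2 := two_mul_le_exp (Real.log y) (Real.log_nonneg hy)
    rw [Real.exp_log (by linarith)] at h2
    rw [pow_succ]; linarith

theorem prod_K {K : ℝ} (hK : 0 ≤ K) (q : ℕ) : ∀ y : ℝ, (∀ i < q, 1 ≤ Real.log^[i] y) →
    ∏ i ∈ Finset.range q, (Real.log^[i] y + K) ≤
      Real.exp (K * (2 - 2 * (1 / 2) ^ q)) * ∏ i ∈ Finset.range q, Real.log^[i] y := by
  induction q with
  | zero => intro y _; simp
  | succ q ih =>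
    intro y h
    have h2 := two_pow_le q y h
    have hy : 1 ≤ y := h 0 (by omega)
    have hL : ∀ i < q, 1 ≤ Real.log^[i] (Real.log y) := fun i hi => by
      have := h (i + 1) (by omega)
      rwa [Function.iterate_succ_apply] at this
    have h1 := ih (Real.log y) hL
    rw [Finset.prod_range_succ', Finset.prod_range_succ']
    simp only [Function.iterate_zero, id, Function.iterate_succ_apply]
    have hprod : 0 ≤ ∏ i ∈ Finset.range q, Real.log^[i] (Real.log y) := by
      apply Finset.prod_nonneg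
      intro i hi
      have := hL i (Finset.mem_range.mp hi)
      linarith
    have h3 : y + K ≤ Real.exp (K * (1 / 2) ^ q) * y := by
      have h4 : 1 + K / y ≤ Real.exp (K / y) := by
        have := Real.add_one_le_exp (K / y); linarith
      have h5 : K / y ≤ K * (1 / 2) ^ q := by
        rw [div_pow, one_pow, mul_one_div]
        exact div_le_div_of_nonneg_left hK (by positivity) h2
      have h6 := Real.exp_le_exp.mpr h5
      have h7 : y + K = (1 + K / y) * y := by field_simp
      rw [h7]
      exact mul_le_mul_of_nonneg_right (h4.trans h6) (by linarith)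
    have h4 : Real.exp (K * (2 - 2 * (1 / 2) ^ (q + 1))) =
        Real.exp (K * (2 - 2 * (1 / 2) ^ q)) * Real.exp (K * (1 / 2) ^ q) := by
      rw [← Real.exp_add]
      congr 1
      rw [pow_succ]; ring
    rw [h4]
    calc (∏ i ∈ Finset.range q, (Real.log^[i] (Real.log y) + K)) * (y + K)
        ≤ (Real.exp (K * (2 - 2 * (1 / 2) ^ q)) *
            ∏ i ∈ Finset.range q, Real.log^[i] (Real.log y)) *
            (Real.exp (K * (1 / 2) ^ q) * y) :=
          mul_le_mul h1 h3 (by linarith) (by positivity)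
      _ = _ := by ring

theorem exists_K : ∃ K : ℝ, 274 ≤ K ∧ Real.log (1 + K) + 67584 + 2 ≤ K ∧
    Real.log 274 + 67584 + 2 ≤ K := by
  refine ⟨200000, by norm_num, ?_, ?_⟩
  · have h1 : Real.log (1 + 200000) ≤ Real.log (2 ^ 18) :=
      Real.log_le_log (by norm_num) (by norm_num)
    rw [Real.log_pow] at h1
    have := Real.log_two_lt_d9
    push_cast at h1
    linarith
  · have h1 : Real.log 274 ≤ Real.log (2 ^ 18) :=
      Real.log_le_log (by norm_num) (by norm_num)
    rw [Real.log_pow] at h1
    have := Real.log_two_lt_d9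
    push_cast at h1
    linarith

theorem first_X0 {d : ℕ} (hd : 2 ≤ d) {τ : ℝ} (hτ : 0 < τ) :
    ∃ l, 1 ≤ l ∧ 4 * X0 d ≤ v d τ l ∧ ∀ k < l, v d τ k < 4 * X0 d := by
  classical
  have hX := X0_ge hd
  have hex : ∃ k, 4 * X0 d ≤ v d τ k := by
    obtain ⟨k, hk⟩ := v_unbounded hd hτ (4 * X0 d)
    exact ⟨k, hk.le⟩
  have h1 := Nat.find_spec hex
  refine ⟨Nat.find hex, ?_, h1, fun k hk => by
    have := Nat.find_min hex hk; linarith⟩
  rcases Nat.eq_zero_or_pos (Nat.find hex) with h | h
  · rw [h, v_zero] at h1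
    have : (0:ℝ) ≤ d := Nat.cast_nonneg d
    linarith
  · exact h

theorem X0_log {d : ℕ} : 4 * X0 d + 2 = 258 + 16 * Real.log d := by unfold X0; ring

theorem lemmaA : ∃ C : ℝ, 1 ≤ C ∧ ∀ d : ℕ, 2 ≤ d → ∀ k : ℕ,
    (∀ i < k, 1 ≤ Real.log^[i + 1] (d:ℝ)) → Real.log^[k + 1] (d:ℝ) < 1 →
    ∀ τ : ℝ, 0 < τ → τ ≤ 3 → ∃ l, 4 * X0 d ≤ v d τ l ∧
      D d τ l ≤ (v d τ l + 2) *
        (C * (∏ i ∈ Finset.range k, Real.log^[i + 1] (d:ℝ)) / (τ * √τ)) := by
  obtain ⟨K, hK0, hK, hK'⟩ := exists_K
  have hK1 : 1 ≤ K := by linarith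
  set Q := (K + 1) ^ (⌈4 * K⌉₊) with hQ
  have hQ1 : 1 ≤ Q := one_le_pow₀ (by linarith)
  have hE1 : 1 ≤ Real.exp (2 * K) := Real.one_le_exp (by linarith)
  refine ⟨11000 * (274 * Q * Real.exp (2 * K)), by nlinarith, ?_⟩
  intro d hd k hlog hlogk τ hτ hτ3
  have hdr : (2:ℝ) ≤ d := by exact_mod_cast hd
  have hX := X0_ge hd
  have hL := log_pos' hd
  obtain ⟨m, m1, m2, m3, m4⟩ := D_pass hd hτ hτ3
  obtain ⟨l, l1, l2, l3⟩ := first_X0 hd hτ
  have hml : m < l := by
    by_contra hcon
    push Not at hcon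
    have := v_mono hd hτ.le hcon
    linarith
  obtain ⟨r, rfl⟩ : ∃ r, l = r + 1 := ⟨l - 1, by omega⟩
  have hmr : m ≤ r := by omega
  have hr4 := l3 r (by omega)
  have hτσ : 0 < τ * √τ := by positivity
  refine ⟨r + 1, l2, ?_⟩
  have hr0 : 1 ≤ v d τ r := m2.trans (v_mono hd hτ.le hmr)
  have hD1 := D_climb hd hτ m1 (by linarith) (r - m)
  rw [show m + (r - m) = r by omega] at hD1
  have hD2 := D_climb hd hτ (m1.trans hmr) (by linarith) 1
  rw [Finset.prod_Ico_succ_top (by omega), Finset.Ico_self, Finset.prod_empty, one_mul] at hD2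
  set G := ∏ i ∈ Finset.range k, Real.log^[i + 1] (d:ℝ) with hG
  have hprod : ∏ i ∈ Finset.Ico (m + 1) (r + 1), (v d τ i + 2) ≤
      274 * Q * Real.exp (2 * K) * G := by
    rcases Nat.eq_zero_or_pos k with hk | hk
    · subst hk
      have h1 := prod_up hd hτ hK1 hK m1 m2 0 r (Real.log d) hmr hr4.le (by intro i hi; omega)
        (by simpa using hlogk) (by
          have : Real.log d < 1 := by simpa using hlogk
          have h2 := X0_log (d := d)
          linarith)
      rw [Finset.range_zero, Finset.prod_empty, mul_one] at h1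
      have hG1 : G = 1 := by rw [hG]; simp
      rw [hG1]
      refine h1.trans ?_
      nlinarith
    · obtain ⟨k', rfl⟩ : ∃ k', k = k' + 1 := ⟨k - 1, by omega⟩
      have hL1 : 1 ≤ Real.log d := by simpa using hlog 0 (by omega)
      have hlog' : ∀ i < k', 1 ≤ Real.log^[i] (Real.log (Real.log d)) := by
        intro i hi
        have := hlog (i + 1) (by omega)
        rwa [Function.iterate_succ_apply, Function.iterate_succ_apply] at this
      have hG2 : G = (∏ i ∈ Finset.range k', Real.log^[i] (Real.log (Real.log d))) *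
          Real.log d := by
        rw [hG, Finset.prod_range_succ']
        rfl
      have hGG : 1 ≤ ∏ i ∈ Finset.range k', Real.log^[i] (Real.log (Real.log d)) := by
        have h := Finset.prod_le_prod (s := Finset.range k') (f := fun _ => (1:ℝ))
          (g := fun i => Real.log^[i] (Real.log (Real.log d))) (fun _ _ => zero_le_one)
          (fun i hi => hlog' i (Finset.mem_range.mp hi))
        rwa [Finset.prod_const_one] at h
      have hvr : v d τ r + 2 ≤ 274 * Real.log d := by
        have h2 := X0_log (d := d)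
        linarith
      rcases hmr.eq_or_lt with h | h
      · rw [← h, Finset.Ico_self, Finset.prod_empty, hG2]
        have h5 : 1 ≤ (∏ i ∈ Finset.range k', Real.log^[i] (Real.log (Real.log d))) *
          Real.log d := by nlinarith
        have h6 : 1 ≤ 274 * Q * Real.exp (2 * K) := by nlinarith
        nlinarith
      · obtain ⟨r', rfl⟩ : ∃ r', r = r' + 1 := ⟨r - 1, by omega⟩
        have hv' : 1 ≤ v d τ r' := m2.trans (v_mono hd hτ.le (by omega))
        have hle : v d τ r' ≤ v d τ (r' + 1) := v_mono hd hτ.le (by omega)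
        have hb := back hd hτ.le (by linarith) (hle.trans hr4.le)
        have hb2 : v d τ r' + 2 ≤ Real.log (Real.log d) + K := by
          have h5 : Real.log (v d τ (r' + 1) + 1) ≤ Real.log (274 * Real.log d) :=
            Real.log_le_log (by linarith) (by linarith)
          rw [Real.log_mul (by norm_num) (by linarith)] at h5
          linarith
        have h1 := prod_up hd hτ hK1 hK m1 m2 k' r' (Real.log (Real.log d)) (by omega)
          (hle.trans hr4.le) hlog' (by
            rwa [Function.iterate_succ_apply, Function.iterate_succ_apply] at hlogk) hb2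
        have h2 := prod_K (by linarith : 0 ≤ K) k' (Real.log (Real.log d)) hlog'
        have h3 : Real.exp (K * (2 - 2 * (1 / 2) ^ k')) ≤ Real.exp (2 * K) := by
          apply Real.exp_le_exp.mpr
          have : (0:ℝ) ≤ (1 / 2) ^ k' := by positivity
          nlinarith
        rw [Finset.prod_Ico_succ_top (by omega), hG2]
        calc (∏ i ∈ Finset.Ico (m + 1) (r' + 1), (v d τ i + 2)) * (v d τ (r' + 1) + 2)
            ≤ (Q * (Real.exp (2 * K) *
                ∏ i ∈ Finset.range k', Real.log^[i] (Real.log (Real.log d)))) *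
                (274 * Real.log d) := by
              apply mul_le_mul _ hvr (by linarith) (by positivity)
              refine h1.trans ?_
              apply mul_le_mul_of_nonneg_left _ (by linarith)
              refine h2.trans ?_
              exact mul_le_mul_of_nonneg_right h3 (by linarith)
          _ = _ := by ring
  have hDm0 := D_nonneg hd hτ.le m
  have hprod0 : 0 ≤ ∏ i ∈ Finset.Ico (m + 1) (r + 1), (v d τ i + 2) := by
    apply Finset.prod_nonneg
    intro i hi
    rw [Finset.mem_Ico] at hi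
    have : v d τ m ≤ v d τ i := v_mono hd hτ.le (by omega)
    linarith
  have hDr : D d τ r ≤ 11000 / (τ * √τ) * (274 * Q * Real.exp (2 * K) * G) :=
    hD1.trans (mul_le_mul m4 hprod hprod0 (by positivity))
  calc D d τ (r + 1) ≤ D d τ r * (v d τ (r + 1) + 2) := hD2
    _ ≤ (11000 / (τ * √τ) * (274 * Q * Real.exp (2 * K) * G)) * (v d τ (r + 1) + 2) :=
        mul_le_mul_of_nonneg_right hDr (by linarith)
    _ = _ := by ring

theorem lemmaB : ∃ C : ℝ, 1 ≤ C ∧ ∀ d : ℕ, 2 ≤ d → ∀ j : ℕ,
    (∀ i < j, 1 ≤ Real.log^[i + 1] (d:ℝ)) →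
    ∀ τ : ℝ, C * (1 + Real.log^[j + 1] (d:ℝ)) ≤ τ → ∃ l, 4 * X0 d ≤ v d τ l ∧
      D d τ l ≤ (v d τ l + 2) *
        (C * ∏ i ∈ Finset.range j, Real.log^[i + 1] (d:ℝ)) := by
  obtain ⟨K, hK0, hK, hK'⟩ := exists_K
  have hK1 : 1 ≤ K := by linarith
  have hE1 : 1 ≤ Real.exp (2 * K) := Real.one_le_exp (by linarith)
  -- the constant for the growth
  set C3 : ℝ := 2 * 67584 + 6 with hC3
  refine ⟨C3 + 274 * Real.exp (2 * K), by rw [hC3]; nlinarith, ?_⟩
  intro d hd j hlog τ hτC
  have hdr : (2:ℝ) ≤ d := by exact_mod_cast hd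
  have hX := X0_ge hd
  have hL := log_pos' hd
  have hLj : 0 ≤ Real.log^[j + 1] (d:ℝ) := by
    rcases Nat.eq_zero_or_pos j with h | h
    · subst h; simpa using hL.le
    · obtain ⟨j', rfl⟩ : ∃ j', j = j' + 1 := ⟨j - 1, by omega⟩
      rw [Function.iterate_succ_apply']
      exact Real.log_nonneg (hlog j' (by omega))
  have hτC3 : C3 * (1 + Real.log^[j + 1] (d:ℝ)) ≤ τ := by
    have : 0 ≤ 274 * Real.exp (2 * K) * (1 + Real.log^[j + 1] (d:ℝ)) := by positivity
    linarith
  have hτ1 : C3 ≤ τ := by
    rw [hC3] at hτC3 ⊢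
    nlinarith
  have hτ : 0 < τ := by rw [hC3] at hτ1; linarith
  have hv1 : 0 ≤ v d τ 1 := by rw [v_one hd]; rw [hC3] at hτ1; linarith
  obtain ⟨l, l1, l2, l3⟩ := first_X0 hd hτ
  obtain ⟨r, rfl⟩ : ∃ r, l = r + 1 := ⟨l - 1, by omega⟩
  refine ⟨r + 1, l2, ?_⟩
  set G := ∏ i ∈ Finset.range j, Real.log^[i + 1] (d:ℝ) with hG
  have hG1 : 1 ≤ G := by
    have h := Finset.prod_le_prod (s := Finset.range j) (f := fun _ => (1:ℝ))
      (g := fun i => Real.log^[i + 1] (d:ℝ)) (fun _ _ => zero_le_one)
      (fun i hi => hlog i (Finset.mem_range.mp hi))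
    rwa [Finset.prod_const_one] at h
  have hCG : 1 ≤ (C3 + 274 * Real.exp (2 * K)) * G := by
    have : 1 ≤ C3 + 274 * Real.exp (2 * K) := by rw [hC3]; linarith
    nlinarith
  rcases Nat.eq_zero_or_pos r with hr0 | hr0
  · subst hr0
    have : D d τ (0 + 1) = 1 := by simp [D]
    rw [this]
    nlinarith
  have hr4 := l3 r (by omega)
  have hvr0 : 0 ≤ v d τ r := hv1.trans (v_mono hd hτ.le (by omega))
  -- quick escape
  have hquick : r ≤ j := by
    by_contra hcon
    push Not at hcon
    have hq : ∀ i, i ≤ j → C3 * (1 + Real.log^[j + 1 - i] (d:ℝ)) - 1 ≤ v d τ (i + 1) := by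
      intro i
      induction i with
      | zero =>
        intro _
        rw [v_one hd]
        simp only [Nat.sub_zero]
        linarith
      | succ i ih =>
        intro hi
        have h1 := ih (by omega)
        have h2 : v d τ (i + 1) < 4 * X0 d := l3 (i + 1) (by omega)
        have h0 : 0 ≤ v d τ (i + 1) := hv1.trans (v_mono hd hτ.le (by omega))
        have h3 := back hd hτ.le h0 h2.le
        set M := Real.log^[j + 1 - (i + 1)] (d:ℝ) with hM
        have hM1 : 1 ≤ M := by
          have h4 := hlog (j - i - 1) (by omega)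
          have e : j - i - 1 + 1 = j + 1 - (i + 1) := by omega
          rwa [e] at h4
        have hlM : Real.log^[j + 1 - i] (d:ℝ) = Real.log M := by
          have e : j + 1 - i = (j + 1 - (i + 1)) + 1 := by omega
          rw [e, Function.iterate_succ_apply']
        rw [hlM] at h1
        have h4 : C3 * (1 + Real.log M) - 1 - 67584 ≤ Real.log (v d τ (i + 1 + 1) + 1) := by
          linarith
        have h5 : 0 < v d τ (i + 1 + 1) + 1 := by
          have : 0 ≤ v d τ (i + 1 + 1) := hv1.trans (v_mono hd hτ.le (by omega))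
          linarith
        have h6 := Real.exp_le_exp.mpr h4
        rw [Real.exp_log h5] at h6
        have h7 : Real.exp (C3 - 1 - 67584) * M ≤ Real.exp (C3 * (1 + Real.log M) - 1 - 67584) := by
          have hM0 : Real.exp (Real.log M) = M := Real.exp_log (by linarith)
          calc Real.exp (C3 - 1 - 67584) * M =
                Real.exp (C3 - 1 - 67584 + Real.log M) := by rw [Real.exp_add, hM0]
            _ ≤ _ := by
                apply Real.exp_le_exp.mpr
                have : 0 ≤ Real.log M := Real.log_nonneg hM1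
                rw [hC3]
                nlinarith
        have h8 : 2 * C3 ≤ Real.exp (C3 - 1 - 67584) := by
          have h9 := Real.quadratic_le_exp_of_nonneg (show 0 ≤ C3 - 1 - 67584 by rw [hC3]; norm_num)
          refine le_trans ?_ h9
          rw [hC3]; norm_num
        have h9 : 2 * C3 * M ≤ Real.exp (C3 - 1 - 67584) * M :=
          mul_le_mul_of_nonneg_right h8 (by linarith)
        have h10 : C3 * (1 + M) ≤ 2 * C3 * M := by rw [hC3]; nlinarith
        linarith
    have h1 := hq j le_rfl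
    have e : j + 1 - j = 1 := by omega
    rw [e] at h1
    have h2 : v d τ (j + 1) < 4 * X0 d := l3 (j + 1) (by omega)
    have h3 : Real.log^[1] (d:ℝ) = Real.log d := rfl
    rw [h3] at h1
    have h4 := X0_log (d := d)
    rw [hC3] at h1
    nlinarith
  have hj0 : 1 ≤ j := by omega
  obtain ⟨j', rfl⟩ : ∃ j', j = j' + 1 := ⟨j - 1, by omega⟩
  have hL1 : 1 ≤ Real.log d := by simpa using hlog 0 (by omega)
  have hlog' : ∀ i < j', 1 ≤ Real.log^[i] (Real.log (Real.log d)) := by
    intro i hi
    have := hlog (i + 1) (by omega)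
    rwa [Function.iterate_succ_apply, Function.iterate_succ_apply] at this
  have hG2 : G = (∏ i ∈ Finset.range j', Real.log^[i] (Real.log (Real.log d))) *
      Real.log d := by
    rw [hG, Finset.prod_range_succ']
    rfl
  have hGG : 1 ≤ ∏ i ∈ Finset.range j', Real.log^[i] (Real.log (Real.log d)) := by
    have h := Finset.prod_le_prod (s := Finset.range j') (f := fun _ => (1:ℝ))
      (g := fun i => Real.log^[i] (Real.log (Real.log d))) (fun _ _ => zero_le_one)
      (fun i hi => hlog' i (Finset.mem_range.mp hi))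
    rwa [Finset.prod_const_one] at h
  have hvr : v d τ r + 2 ≤ 274 * Real.log d := by
    have h2 := X0_log (d := d)
    linarith
  have hprod : ∏ i ∈ Finset.Ico 2 (r + 1), (v d τ i + 2) ≤ 274 * Real.exp (2 * K) * G := by
    rcases (show 1 ≤ r from hr0).eq_or_lt with h | h
    · rw [← h]
      have h6 : 1 ≤ 274 * Real.exp (2 * K) := by linarith
      simp only [Finset.Ico_self, Finset.prod_empty, one_add_one_eq_two]
      nlinarith
    · obtain ⟨r', rfl⟩ : ∃ r', r = r' + 1 := ⟨r - 1, by omega⟩
      have hv' : 0 ≤ v d τ r' := hv1.trans (v_mono hd hτ.le (by omega))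
      have hle : v d τ r' ≤ v d τ (r' + 1) := v_mono hd hτ.le (by omega)
      have hb := back hd hτ.le hv' (hle.trans hr4.le)
      have hb2 : v d τ r' + 2 ≤ Real.log (Real.log d) + K := by
        have h5 : Real.log (v d τ (r' + 1) + 1) ≤ Real.log (274 * Real.log d) :=
          Real.log_le_log (by linarith) (by linarith)
        rw [Real.log_mul (by norm_num) (by linarith)] at h5
        linarith
      have h1 := prod_up' hd hτ hK1 hK hv1 j' r' (Real.log (Real.log d)) (by omega)
        (hle.trans hr4.le) hlog' hb2 (by omega)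
      have h2 := prod_K (by linarith : 0 ≤ K) j' (Real.log (Real.log d)) hlog'
      have h3 : Real.exp (K * (2 - 2 * (1 / 2) ^ j')) ≤ Real.exp (2 * K) := by
        apply Real.exp_le_exp.mpr
        have : (0:ℝ) ≤ (1 / 2) ^ j' := by positivity
        nlinarith
      rw [Finset.prod_Ico_succ_top (by omega), hG2]
      calc (∏ i ∈ Finset.Ico 2 (r' + 1), (v d τ i + 2)) * (v d τ (r' + 1) + 2)
          ≤ (Real.exp (2 * K) *
              ∏ i ∈ Finset.range j', Real.log^[i] (Real.log (Real.log d))) *
              (274 * Real.log d) := by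
            apply mul_le_mul _ hvr (by linarith) (by positivity)
            refine h1.trans ?_
            refine h2.trans ?_
            exact mul_le_mul_of_nonneg_right h3 (by linarith)
        _ = _ := by ring
  have hD1 := D_climb hd hτ le_rfl hv1 (r - 1)
  rw [show 1 + (r - 1) = r by omega] at hD1
  have hD2 := D_climb hd hτ (show 1 ≤ r from hr0) hvr0 1
  rw [Finset.prod_Ico_succ_top (by omega), Finset.Ico_self, Finset.prod_empty, one_mul] at hD2
  have hone : D d τ 1 = 1 := by simp [D]
  rw [hone, one_mul] at hD1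
  calc D d τ (r + 1) ≤ D d τ r * (v d τ (r + 1) + 2) := hD2
    _ ≤ (274 * Real.exp (2 * K) * G) * (v d τ (r + 1) + 2) := by
        apply mul_le_mul_of_nonneg_right (hD1.trans hprod)
        linarith
    _ ≤ ((C3 + 274 * Real.exp (2 * K)) * G) * (v d τ (r + 1) + 2) := by
        apply mul_le_mul_of_nonneg_right _ (by linarith)
        apply mul_le_mul_of_nonneg_right _ (by linarith)
        rw [hC3]; linarith
    _ = _ := by ring

end Pool.Agent.T9h9.Cusp
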