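import Mathlib
import Pool.Agent.T9h9.Cusp.Width3

set_option autoImplicit false

open Complex Set Metric N62a1eb23 Pool.Agent.H712R2

namespace Pool.Agent.T9h9.Cusp

theorem prod_one_le {k : ℕ} {y : ℝ} (h : ∀ i < k, 1 ≤ Real.log^[i + 1] y) :
    1 ≤ ∏ i ∈ Finset.range k, Real.log^[i + 1] y := by
  have h := Finset.prod_le_prod (s := Finset.range k) (f := fun _ => (1:ℝ))
    (g := fun i => Real.log^[i + 1] y) (fun _ _ => zero_le_one)
    (fun i hi => h i (Finset.mem_range.mp hi))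
  rwa [Finset.prod_const_one] at h

/-- the point `a_n + t` in terms of `T` -/
theorem T_eq {n : ℕ} (hn : 2 ≤ n) (t : ℝ) : T n (n * t / sr n) = rr n + t := by
  have hs := sr_pos n
  have hnr : (2:ℝ) ≤ n := by exact_mod_cast hn
  rw [T]; field_simp

theorem T_sub {n : ℕ} (τ τ' : ℝ) : T n τ' - T n τ = sr n / n * (τ' - τ) := by
  rw [T, T]; ring

theorem lower_small : ∃ C : ℝ, 1 ≤ C ∧ ∀ n : ℕ, 2 ≤ n → ∀ k : ℕ,
    (∀ i < k, 1 ≤ Real.log^[i + 1] (n:ℝ)) → Real.log^[k + 1] (n:ℝ) < 1 →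
    ∀ t : ℝ, 0 < t → t ≤ 1 / n → ∀ c ∈ multibrotSet n,
      (n * t) * √(n * t) / (C * (n * ∏ i ∈ Finset.range k, Real.log^[i + 1] (n:ℝ))) ≤
        dist c ((rr n + t : ℝ) : ℂ) := by
  obtain ⟨CA, hCA, hA⟩ := lemmaA
  refine ⟨16 * CA, by linarith, ?_⟩
  intro n hn k hlog hlogk t ht htn c hc
  have hnr : (2:ℝ) ≤ n := by exact_mod_cast hn
  have hs := sr_pos n
  have hs1 := sr_lt_one hn
  have hs2 := sr_ge_half hn
  set G := ∏ i ∈ Finset.range k, Real.log^[i + 1] (n:ℝ) with hG
  have hG1 : 1 ≤ G := prod_one_le hlog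
  set τ := n * t / sr n with hτdef
  have hnt : 0 < n * t := by positivity
  have hτ : 0 < τ := by positivity
  have hntτ : n * t ≤ τ := by
    rw [hτdef, le_div_iff₀ hs]
    nlinarith
  have hnt1 : n * t ≤ 1 := by
    rw [le_div_iff₀ (by linarith)] at htn
    linarith
  have hτ2 : τ ≤ 2 := by
    rw [hτdef, div_le_iff₀ hs]
    linarith
  have hσ : √τ ≤ 2 := by
    apply Real.sqrt_le_iff.mpr
    constructor <;> linarith
  have hσ0 : 0 < √τ := Real.sqrt_pos.mpr hτ
  set η := τ * √τ / (8 * CA * G) with hη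
  have hη0 : 0 < η := by positivity
  have hη1 : η ≤ 1 := by
    rw [hη, div_le_one (by positivity)]
    have h1 : τ * √τ ≤ 2 * 2 := mul_le_mul hτ2 hσ hσ0.le (by norm_num)
    nlinarith
  obtain ⟨l, l1, l2⟩ := hA n hn k hlog hlogk (τ + η) (by linarith) (by linarith)
  by_contra hcon
  push Not at hcon
  have hσσ : √τ ≤ √(τ + η) := Real.sqrt_le_sqrt (by linarith)
  apply notMem_of_D hn hτ.le (show τ ≤ τ + η by linarith) l1 l2 _ _ hc
  · have h1 : CA * G / ((τ + η) * √(τ + η)) ≤ CA * G / (τ * √τ) := by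
      apply div_le_div_of_nonneg_left (by positivity) (by positivity)
      exact mul_le_mul (by linarith) hσσ hσ0.le (by linarith)
    have h2 : (τ + η - τ) * (CA * G / (τ * √τ)) = 1 / 8 := by
      rw [add_sub_cancel_left, hη]
      field_simp
    have h3 : (τ + η - τ) * (CA * G / ((τ + η) * √(τ + η))) ≤
        (τ + η - τ) * (CA * G / (τ * √τ)) :=
      mul_le_mul_of_nonneg_left h1 (by linarith)
    linarith
  · rw [T_sub, add_sub_cancel_left, T_eq hn, ← dist_eq_norm]
    refine hcon.le.trans ?_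
    have h1 : (n * t) * √(n * t) ≤ τ * √τ :=
      mul_le_mul hntτ (Real.sqrt_le_sqrt hntτ) (Real.sqrt_nonneg _) hτ.le
    have h2 : (n * t) * √(n * t) / (16 * CA * (n * G)) ≤ τ * √τ / (16 * CA * (n * G)) :=
      div_le_div_of_nonneg_right h1 (by positivity)
    refine h2.trans ?_
    have h3 : sr n / n * η = sr n * (τ * √τ) / (8 * CA * (n * G)) := by
      rw [hη]; field_simp
    rw [h3, div_le_div_iff₀ (by positivity) (by positivity)]
    have h4 : 0 < τ * √τ := by positivity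
    have h5 : 0 < CA * (n * G) := by positivity
    nlinarith [mul_pos h4 h5, mul_nonneg (mul_pos h4 h5).le (show 0 ≤ 2 * sr n - 1 by linarith)]

theorem lower_large : ∃ C : ℝ, 1 ≤ C ∧ ∀ n : ℕ, 2 ≤ n → ∀ k : ℕ,
    (∀ i < k, 1 ≤ Real.log^[i + 1] (n:ℝ)) →
    ∀ t : ℝ, C * (1 + Real.log^[k + 1] (n:ℝ)) / n ≤ t → ∀ c ∈ multibrotSet n,
      1 / (C * (n * ∏ i ∈ Finset.range k, Real.log^[i + 1] (n:ℝ))) ≤
        dist c ((rr n + t : ℝ) : ℂ) := by
  obtain ⟨CB, hCB, hB⟩ := lemmaB
  refine ⟨16 * CB, by linarith, ?_⟩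
  intro n hn k hlog t htn c hc
  have hnr : (2:ℝ) ≤ n := by exact_mod_cast hn
  have hs := sr_pos n
  have hs1 := sr_lt_one hn
  have hs2 := sr_ge_half hn
  set G := ∏ i ∈ Finset.range k, Real.log^[i + 1] (n:ℝ) with hG
  have hG1 : 1 ≤ G := prod_one_le hlog
  have hL := log_pos' hn
  have hLj : 0 ≤ Real.log^[k + 1] (n:ℝ) := by
    rcases Nat.eq_zero_or_pos k with h | h
    · subst h; simpa using hL.le
    · obtain ⟨j', rfl⟩ : ∃ j', k = j' + 1 := ⟨k - 1, by omega⟩
      rw [Function.iterate_succ_apply']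
      exact Real.log_nonneg (hlog j' (by omega))
  set τ := n * t / sr n with hτdef
  rw [div_le_iff₀ (by linarith)] at htn
  have hnt : CB * (1 + Real.log^[k + 1] (n:ℝ)) ≤ n * t := by nlinarith
  have hnt0 : 0 < n * t := by nlinarith
  have ht : 0 < t := by
    by_contra hcon
    push Not at hcon
    nlinarith
  have hτ : 0 < τ := by positivity
  have hntτ : n * t ≤ τ := by
    rw [hτdef, le_div_iff₀ hs]
    nlinarith
  set η := 1 / (8 * CB * G) with hη
  have hη0 : 0 < η := by positivity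
  obtain ⟨l, l1, l2⟩ := hB n hn k hlog (τ + η) (by linarith)
  by_contra hcon
  push Not at hcon
  apply notMem_of_D hn hτ.le (show τ ≤ τ + η by linarith) l1 l2 _ _ hc
  · rw [add_sub_cancel_left, hη, ← hG]
    apply le_of_eq
    field_simp
  · rw [T_sub, add_sub_cancel_left, T_eq hn, ← dist_eq_norm]
    refine hcon.le.trans ?_
    have h3 : sr n / n * η = sr n / (8 * CB * (n * G)) := by
      rw [hη]; field_simp
    rw [h3, div_le_div_iff₀ (by positivity) (by positivity)]
    have h5 : 0 < CB * (n * G) := by positivity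
    nlinarith [mul_nonneg h5.le (show 0 ≤ 2 * sr n - 1 by linarith)]

/-- points of `M_n` near the axis, small scales -/
theorem upper_small : ∃ C : ℝ, 1 ≤ C ∧ ∀ n : ℕ, 2 ≤ n → ∀ k : ℕ,
    (∀ i < k, 1 ≤ Real.log^[i + 1] (n:ℝ)) → ∀ t : ℝ, 0 < t → t ≤ 1 / n →
    ∃ t' : ℝ, t / C ≤ t' ∧ t' ≤ t ∧ ∃ c ∈ multibrotSet n,
      dist c ((rr n + t' : ℝ) : ℂ) ≤
        C * ((n * t) * √(n * t)) / (n * ∏ i ∈ Finset.range k, Real.log^[i + 1] (n:ℝ)) := by
  set A : ℝ := 64 * Real.exp 14 with hA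
  have hA1 : 64 ≤ A := by
    have : (1:ℝ) ≤ Real.exp 14 := Real.one_le_exp (by norm_num)
    rw [hA]; linarith
  refine ⟨max (9 * A) 800, le_max_of_le_left (by linarith), ?_⟩
  intro n hn k hlog t ht htn
  set C := max (9 * A) 800 with hC
  have hC1 : 9 * A ≤ C := le_max_left _ _
  have hC2 : 800 ≤ C := le_max_right _ _
  have hnr : (2:ℝ) ≤ n := by exact_mod_cast hn
  have hs := sr_pos n
  have hs1 := sr_lt_one hn
  have hs2 := sr_ge_half hn
  have hB : 1 ≤ (n:ℝ) * (2 / sr n - 1) := by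
    have : 2 ≤ 2 / sr n := by
      rw [le_div_iff₀ hs]
      linarith
    nlinarith
  have hnt : 0 < n * t := by positivity
  have hnt1 : n * t ≤ 1 := by
    rw [le_div_iff₀ (by linarith)] at htn
    linarith
  obtain ⟨τ, t1, t2, j, hj⟩ := exists_good hn (ε := n * t / 100) (by positivity) (by linarith) hB
  have hτ0 : 0 < τ := lt_of_lt_of_le (by positivity) t1
  have hXX : XX n τ j = 2 := by
    rw [XX, hj]; field_simp; ring
  have hT : T n τ ≤ 1 := T_le_one hn (by linarith)
  have hD := D_lower hn hτ0 (by linarith) hT hXX k hlog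
  have hj1 : 1 ≤ j := by
    rcases Nat.eq_zero_or_pos j with h | h
    · subst h
      rw [v_zero] at hj; linarith
    · exact h
  have hDp := D_pos hn hτ0.le hj1
  set GG := ∏ i ∈ Finset.range k, Real.log^[i + 1] (n:ℝ) with hGG
  have hGG1 : 1 ≤ GG := prod_one_le hlog
  have hnGG : 0 < (n:ℝ) * GG := by positivity
  have hDinv : 1 / D n τ j ≤ A * (τ * √τ) / (n * GG) := by
    rw [div_le_div_iff₀ (by linarith) hnGG]
    linarith
  obtain ⟨x, hx, hxd⟩ := exists_near hn hτ0.le hT hXX.ge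
  rw [hXX] at hxd
  have hnum : 2 * ((2 + 1) * Real.log (2 * 2)) ≤ 9 := by
    have h1 : Real.log (2 * 2) = 2 * Real.log 2 := by
      rw [Real.log_mul (by norm_num) (by norm_num)]; ring
    have := Real.log_two_lt_d9
    rw [h1]; linarith
  have hTe : T n τ = rr n + sr n * τ / n := rfl
  refine ⟨sr n * τ / n, ?_, ?_, x, hx, ?_⟩
  · rw [div_le_div_iff₀ (by linarith) (by linarith)]
    have h1 : n * t / 400 ≤ τ := by linarith
    have h2 : n * t / 800 ≤ sr n * τ := by nlinarith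
    nlinarith
  · rw [div_le_iff₀ (by linarith)]
    nlinarith
  · rw [← hTe]
    refine hxd.trans ?_
    have h1 : 2 * ((2 + 1) * Real.log (2 * 2)) / D n τ j ≤ 9 * (1 / D n τ j) := by
      rw [mul_one_div]
      exact div_le_div_of_nonneg_right hnum (by linarith)
    have hτnt : τ ≤ n * t := by linarith
    have h2 : A * (τ * √τ) / (n * GG) ≤ A * ((n * t) * √(n * t)) / (n * GG) := by
      apply div_le_div_of_nonneg_right _ hnGG.le
      apply mul_le_mul_of_nonneg_left _ (by linarith)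
      exact mul_le_mul hτnt (Real.sqrt_le_sqrt hτnt) (Real.sqrt_nonneg _) hnt.le
    have h3 : 9 * (A * ((n * t) * √(n * t)) / (n * GG)) ≤
        C * ((n * t) * √(n * t)) / (n * GG) := by
      rw [← mul_div_assoc]
      apply div_le_div_of_nonneg_right _ hnGG.le
      have : 0 ≤ (n * t) * √(n * t) := by positivity
      nlinarith
    linarith

/-- points of `M_n` near the axis, large scales -/
theorem upper_large : ∃ C : ℝ, 1 ≤ C ∧ ∀ n : ℕ, 2 ≤ n → ∀ k : ℕ,
    (∀ i ≤ k, 1 ≤ Real.log^[i + 1] (n:ℝ)) →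
    ∃ t : ℝ, Real.log^[k + 1] (n:ℝ) / (C * n) ≤ t ∧ ∃ c ∈ multibrotSet n,
      dist c ((rr n + t : ℝ) : ℂ) ≤
        C / (n * ∏ i ∈ Finset.range k, Real.log^[i + 1] (n:ℝ)) := by
  obtain ⟨C0, hC0, hsmall⟩ := upper_small
  set B : ℝ := 144 * Real.exp 12 with hB
  have he12 : (1:ℝ) ≤ Real.exp 12 := Real.one_le_exp (by norm_num)
  have hB8 : 144 ≤ B := by rw [hB]; linarith
  refine ⟨C0 * B, by nlinarith, ?_⟩
  intro n hn k hlog
  have hnr : (2:ℝ) ≤ n := by exact_mod_cast hn
  set G := ∏ i ∈ Finset.range k, Real.log^[i + 1] (n:ℝ) with hG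
  have hG1 : 1 ≤ G := prod_one_le fun i hi => hlog i hi.le
  have hnG : 0 < (n:ℝ) * G := by positivity
  have hCB : C0 ≤ C0 * B := by nlinarith
  rcases lt_or_ge (Real.log^[k + 1] (n:ℝ)) B with hlt | hge
  · obtain ⟨t', x1, x2, c, hc, x3⟩ := hsmall n hn k (fun i hi => hlog i hi.le) (1 / n)
      (by positivity) le_rfl
    have e : (n:ℝ) * (1 / n) = 1 := by field_simp
    rw [e, Real.sqrt_one, mul_one, mul_one] at x3
    refine ⟨t', le_trans ?_ x1, c, hc, x3.trans ?_⟩
    · rw [div_div, div_le_div_iff₀ (by positivity) (by positivity)]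
      have h1 : 0 < C0 * n := by positivity
      nlinarith
    · exact div_le_div_of_nonneg_right hCB hnG.le
  · set a := Real.log^[k + 1] (n:ℝ) with ha
    have ha8 : 8 ≤ a := by linarith
    have hk : tow a k = Real.log n := by
      rw [ha, tow_log hlog k le_rfl]
      have : k + 1 - k = 1 := by omega
      rw [this]; rfl
    have hGt : ∏ l ∈ Finset.range k, tow a (l + 1) = G := by
      rw [hG, ← Finset.prod_range_reflect]
      apply Finset.prod_congr rfl
      intro i hi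
      have hi' := Finset.mem_range.mp hi
      rw [ha, tow_log hlog (k - 1 - i + 1) (by omega)]
      congr 2
      omega
    obtain ⟨τ, hτ, hT, hX⟩ := exists_hit hn k
    have haτ := tau_ge hn ha8 hk hτ hT hX
    have hD := D_stair hn ha8 hk hτ hT hX
    rw [hGt] at hD
    have hDp := D_pos hn hτ.le (k := k + 2) (by omega)
    have hs2 := sr_ge_half hn
    have hDinv : 1 / D n τ (k + 2) ≤ 4 * Real.exp 12 / (n * G) := by
      rw [div_le_div_iff₀ (by linarith) hnG]
      linarith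
    obtain ⟨x, hx, hxd⟩ := exists_near hn hτ.le hT hX.ge
    rw [hX] at hxd
    have hnum : 2 * ((2 + 1) * Real.log (2 * 2)) ≤ 9 := by
      have h1 : Real.log (2 * 2) = 2 * Real.log 2 := by
        rw [Real.log_mul (by norm_num) (by norm_num)]; ring
      have := Real.log_two_lt_d9
      rw [h1]; linarith
    have hTe : T n τ = rr n + sr n * τ / n := rfl
    refine ⟨sr n * τ / n, ?_, x, hx, ?_⟩
    · rw [div_le_div_iff₀ (by positivity) (by linarith)]
      have h2 : a / 2 ≤ sr n * τ := by nlinarith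
      have h3 : a ≤ sr n * τ * (C0 * B) := by
        have h4 : 2 ≤ C0 * B := by nlinarith
        nlinarith
      have h5 : 0 < (n:ℝ) := by linarith
      nlinarith
    · rw [← hTe]
      refine hxd.trans ?_
      have h1 : 2 * ((2 + 1) * Real.log (2 * 2)) / D n τ (k + 2) ≤ 9 * (1 / D n τ (k + 2)) := by
        rw [mul_one_div]
        exact div_le_div_of_nonneg_right hnum (by linarith)
      have h2 : 9 * (4 * Real.exp 12 / (n * G)) = (B / 4) / (n * G) := by rw [hB]; ring
      have h3 : (B / 4) / (n * G) ≤ C0 * B / (n * G) := by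
        apply div_le_div_of_nonneg_right _ hnG.le
        nlinarith
      linarith

end Pool.Agent.T9h9.Cusp
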